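import Pool.Agent.Helper10.EQ.M_GTH
import Pool.Agent.Helper14.EQ.M_PIG
import Pool.Agent.Helper14.EQ.M_PPF
import Pool.Agent.Helper15.EQ.M_GDL
import Pool.Agent.Helper2.EQ.M_ALL
import Pool.Agent.Helper2.EQ.M_HBS
import Pool.Agent.Helper2.EQ.M_ONE
import Pool.Agent.Helper2.EQ.M_PSM
import Pool.Agent.Helper24.EQ.M_LCZ
import Pool.Agent.Helper24.EQ.M_MAQ
import Pool.Agent.Helper27.EQ.M_MIQ
import Pool.Agent.Helper27.EQ.M_WRN
import Pool.Agent.Helper29.EP.M_GPG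
import Pool.Agent.Helper29.EQ.M_MXJ
import Pool.Agent.Helper29.EQ.M_NVC
import Pool.Agent.Helper29.EQ.M_RIX
import Pool.Agent.Helper30.EQ.M_FWC
import Pool.Agent.Helper33.EQ.M_MX0
import Pool.Agent.Helper33.EQ.M_MX1
import Pool.Agent.Helper33.EQ.M_PPW
import Pool.Agent.Helper33.EQ.M_PRD
import Pool.Agent.Helper36.EQ.M_NVA
import Pool.Agent.Helper37.EQ.M_BTW
import Pool.Agent.Helper37.EQ.M_MXL
import Pool.Agent.Helper38.EQ.M_EER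
import Pool.Agent.Helper39.EQ.M_BNS
import Pool.Agent.Helper39.EQ.M_OCN
import Pool.Agent.Helper39.EQ.M_SGE
import Pool.Agent.Helper39.EQ.M_WCV
import Pool.Agent.Helper4.EQ.M_WAD
import Pool.Agent.Helper41.EQ.M_NVB
import Pool.Agent.Helper42.EQ.M_LOW
import Pool.Agent.Helper45.EQ.M_BUN
import Pool.Agent.Helper45.EQ.M_MIM
import Pool.Agent.Helper47.EQ.M_TWC
import Pool.Agent.Helper47.EQ.M_WRF
import Pool.Agent.Helper51.EQ.M_LOS
import Pool.Agent.Helper52.EP.M_CPP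
import Pool.Agent.Helper57.EQ.M_DMP
import Pool.Agent.Helper60.EQ.M_NVD
import Pool.Agent.Helper60.EQ.M_WRJ
import Pool.Agent.Helper62.EQ.M_DFZ
import Pool.Agent.Helper64.EQ.M_EVS
import Pool.Agent.Helper64.EQ.M_FWS
import Pool.Agent.Helper64.EQ.M_LBC
import Pool.Agent.Helper72.EQ.M_CEF
import Pool.Agent.Helper78.EQ.M_CRQ
import Pool.Agent.Helper78.EQ.M_WRM
import Pool.Agent.Helper79.EQ.M_PPO
import Pool.Agent.Helper80.EQ.M_KD
import Pool.Agent.Helper83.EQ.M_PPG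
import Pool.Agent.Helper83.EQ.M_WCD
import Pool.Agent.Helper85.EQ.M_CEY
import Pool.Agent.Helper85.EQ.M_HAS
import Pool.Agent.Helper89.EQ.M_WT
import Pool.Agent.Helper9.EQ.M_CQ
import Pool.Agent.Helper90.EQ.M_VL
import Pool.Agent.Helper91.EQ.M_CN
import Pool.Agent.Helper91.EQ.M_SS
import Pool.Agent.Helper95.EQ.M_CEC
import Pool.Agent.Helper97.EQ.M_GON
import Pool.Agent.Helper20.RG.Asm

/-!
# Project EQ (MP_cb927e_an): assembly
-/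

set_option autoImplicit false

namespace Pool.Agent.Helper20.EQ

theorem pCN : StCN :=
  Pool.Agent.Helper91.EQ.hCN 

theorem pCQ : StCQ :=
  Pool.Agent.Helper9.EQ.hCQ Pool.Agent.Helper20.RG.pMM pCN

theorem pWT : StWT :=
  Pool.Agent.Helper89.EQ.hWT pCN pCQ Pool.Agent.Helper29.EP.hGPG

theorem pSS : StSS :=
  Pool.Agent.Helper91.EQ.hSS 

theorem pMX0 : StMX0 :=
  Pool.Agent.Helper33.EQ.hMX0 

theorem pMX1 : StMX1 :=
  Pool.Agent.Helper33.EQ.hMX1 pMX0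

theorem pSGE : StSGE :=
  Pool.Agent.Helper39.EQ.hSGE Pool.Agent.Helper20.RG.pSINC

theorem pMXL : StMXL :=
  Pool.Agent.Helper37.EQ.hMXL pSGE pMX1

theorem pKD : StKD :=
  Pool.Agent.Helper80.EQ.hKD Pool.Agent.Helper20.RG.pPT Pool.Agent.Helper20.RG.pSINC Pool.Agent.Helper20.RG.pMEA

theorem pMXJ : StMXJ :=
  Pool.Agent.Helper29.EQ.hMXJ Pool.Agent.Helper20.RG.pPT pMXL pKD pSGE

theorem pWRJ : StWRJ :=
  Pool.Agent.Helper60.EQ.hWRJ Pool.Agent.Helper20.RG.pPT pMXL pSGE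

theorem pPSM : StPSM :=
  Pool.Agent.Helper2.EQ.hPSM Pool.Agent.Helper20.RG.pSC Pool.Agent.Helper20.RG.pSUF

theorem pOCN : StOCN :=
  Pool.Agent.Helper39.EQ.hOCN Pool.Agent.Helper20.RG.pPT pPSM Pool.Agent.Helper20.RG.pOCT

theorem pMIM : StMIM :=
  Pool.Agent.Helper45.EQ.hMIM Pool.Agent.Helper20.RG.pPT pPSM Pool.Agent.Helper20.RG.pOCT pCN pCQ Pool.Agent.Helper20.RG.pSYS Pool.Agent.Helper29.EP.hGPG

theorem pBNS : StBNS :=
  Pool.Agent.Helper39.EQ.hBNS pCN pWT pSS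

theorem pWRM : StWRM :=
  Pool.Agent.Helper78.EQ.hWRM Pool.Agent.Helper20.RG.pPT pCN pWT

theorem pWRN : StWRN :=
  Pool.Agent.Helper27.EQ.hWRN pCN pWT pSS

theorem pBUN : StBUN :=
  Pool.Agent.Helper45.EQ.hBUN pMXJ pOCN pBNS Pool.Agent.Helper20.RG.pSYS Pool.Agent.Helper29.EP.hGPG

theorem pMIQ : StMIQ :=
  Pool.Agent.Helper27.EQ.hMIQ Pool.Agent.Helper20.RG.pYB pKD pMIM pSS pCN Pool.Agent.Helper20.RG.pSYS Pool.Agent.Helper29.EP.hGPG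

theorem pALL : StALL :=
  Pool.Agent.Helper2.EQ.hALL Pool.Agent.Helper20.RG.pYB pKD pPSM Pool.Agent.Helper20.RG.pOCT Pool.Agent.Helper20.RG.pL2B

theorem pDFZ : StDFZ :=
  Pool.Agent.Helper62.EQ.hDFZ pMXJ pOCN

theorem pWRF : StWRF :=
  Pool.Agent.Helper47.EQ.hWRF pWRJ pWRM pWRN

theorem pWAD : StWAD :=
  Pool.Agent.Helper4.EQ.hWAD 

theorem pWCD : StWCD :=
  Pool.Agent.Helper83.EQ.hWCD pWAD Pool.Agent.Helper20.RG.pWB

theorem pPPW : StPPW :=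
  Pool.Agent.Helper33.EQ.hPPW Pool.Agent.Helper20.RG.pPT Pool.Agent.Helper20.RG.pRID Pool.Agent.Helper20.RG.pPAR

theorem pPPO : StPPO :=
  Pool.Agent.Helper79.EQ.hPPO pWCD pPPW

theorem pPPF : StPPF :=
  Pool.Agent.Helper14.EQ.hPPF pPPO pALL Pool.Agent.Helper20.RG.pFAM Pool.Agent.Helper20.RG.pSYS Pool.Agent.Helper29.EP.hGPG

theorem pPPG : StPPG :=
  Pool.Agent.Helper83.EQ.hPPG pPPF

theorem pCEF : StCEF :=
  Pool.Agent.Helper72.EQ.hCEF Pool.Agent.Helper20.RG.pPT pSGE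

theorem pCEC : StCEC :=
  Pool.Agent.Helper95.EQ.hCEC pCEF

theorem pCEY : StCEY :=
  Pool.Agent.Helper85.EQ.hCEY Pool.Agent.Helper20.RG.pPT pCEF Pool.Agent.Helper20.RG.pYC Pool.Agent.Helper20.RG.pYB Pool.Agent.Helper20.RG.pMEA

theorem pPRD : StPRD :=
  Pool.Agent.Helper33.EQ.hPRD Pool.Agent.Helper20.RG.pPT Pool.Agent.Helper20.RG.pPAR

theorem pGTH : StGTH :=
  Pool.Agent.Helper10.EQ.hGTH Pool.Agent.Helper20.RG.pPT pPRD pCEY pCEF Pool.Agent.Helper20.RG.pYC Pool.Agent.Helper20.RG.pYB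

theorem pLBC : StLBC :=
  Pool.Agent.Helper64.EQ.hLBC Pool.Agent.Helper20.RG.pPT Pool.Agent.Helper20.RG.pYB pKD pPSM Pool.Agent.Helper20.RG.pL2B pCEF

theorem pGON : StGON :=
  Pool.Agent.Helper97.EQ.hGON Pool.Agent.Helper20.RG.pPT pLBC pCEF pCEC pCEY Pool.Agent.Helper20.RG.pYB

theorem pLCZ : StLCZ :=
  Pool.Agent.Helper24.EQ.hLCZ Pool.Agent.Helper20.RG.pPT pCEF

theorem pBTW : StBTW :=
  Pool.Agent.Helper37.EQ.hBTW Pool.Agent.Helper20.RG.pPT pGON pGTH pLCZ pCEY pCQ pWT Pool.Agent.Helper20.RG.pSYS Pool.Agent.Helper20.RG.pYB Pool.Agent.Helper29.EP.hGPG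

theorem pGDL : StGDL :=
  Pool.Agent.Helper15.EQ.hGDL Pool.Agent.Helper20.RG.pGD

theorem pRIX : StRIX :=
  Pool.Agent.Helper29.EQ.hRIX pGDL

theorem pTWC : StTWC :=
  Pool.Agent.Helper47.EQ.hTWC pBTW pPPG pWT pCQ pCN Pool.Agent.Helper29.EP.hGPG

theorem pHBS : StHBS :=
  Pool.Agent.Helper2.EQ.hHBS pTWC pGDL pRIX pBUN pWRF pMIQ

theorem pONE : StONE :=
  Pool.Agent.Helper2.EQ.hONE pGDL pRIX pMIQ

theorem pFWC : StFWC :=
  Pool.Agent.Helper30.EQ.hFWC pPPG pWT Pool.Agent.Helper20.RG.pYB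

theorem pFWS : StFWS :=
  Pool.Agent.Helper64.EQ.hFWS pFWC pGDL pRIX pBUN

theorem pVL : StVL :=
  Pool.Agent.Helper90.EQ.hVL Pool.Agent.Helper20.RG.pPS Pool.Agent.Helper20.RG.pINV Pool.Agent.Helper20.RG.pLBW Pool.Agent.Helper20.RG.pMK Pool.Agent.Helper20.RG.pER

theorem pWCV : StWCV :=
  Pool.Agent.Helper39.EQ.hWCV Pool.Agent.Helper20.RG.pWC Pool.Agent.Helper20.RG.pRDS pVL

theorem pNVA : StNVA :=
  Pool.Agent.Helper36.EQ.hNVA 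

theorem pNVB : StNVB :=
  Pool.Agent.Helper41.EQ.hNVB 

theorem pNVC : StNVC :=
  Pool.Agent.Helper29.EQ.hNVC 

theorem pNVD : StNVD :=
  Pool.Agent.Helper60.EQ.hNVD 

theorem pLOS : StLOS :=
  Pool.Agent.Helper51.EQ.hLOS pVL pWCV pNVA pNVB pNVC pNVD pDFZ Pool.Agent.Helper20.RG.pFAM Pool.Agent.Helper20.RG.pSYS Pool.Agent.Helper29.EP.hGPG

theorem pHAS : StHAS :=
  Pool.Agent.Helper85.EQ.hHAS pLOS pFWS pGDL pRIX

theorem pPIG : StPIG :=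
  Pool.Agent.Helper14.EQ.hPIG Pool.Agent.Helper20.RG.pYB

theorem pEVS : StEVS :=
  Pool.Agent.Helper64.EQ.hEVS pPIG pONE pHBS pHAS

theorem pEER : StEER :=
  Pool.Agent.Helper38.EQ.hEER Pool.Agent.Helper20.RG.pYB Pool.Agent.Helper20.RG.pERR Pool.Agent.Helper29.EP.hGPG

theorem pLOW : StLOW :=
  Pool.Agent.Helper42.EQ.hLOW Pool.Agent.Helper20.RG.pHLY Pool.Agent.Helper20.RG.pSYS Pool.Agent.Helper29.EP.hGPG

theorem pDMP : StDMP :=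
  Pool.Agent.Helper57.EQ.hDMP Pool.Agent.Helper20.RG.pPT Pool.Agent.Helper20.RG.pYB Pool.Agent.Helper20.RG.pDOM pLOW Pool.Agent.Helper29.EP.hGPG

theorem pCRQ : StCRQ :=
  Pool.Agent.Helper78.EQ.hCRQ pDMP pEER pEVS

theorem pMAQ : StMAQ :=
  Pool.Agent.Helper24.EQ.hMAQ Pool.Agent.Helper20.RG.pCOV Pool.Agent.Helper52.EP.hCPP pCRQ Pool.Agent.Helper20.RG.pRES Pool.Agent.Helper20.RG.pFIN

end Pool.Agent.Helper20.EQ
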