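import Pool.Agent.Helper68.EP.St6
import Pool.Agent.Helper20.RG.St2

/-!
# Project EQ (MP_cb927e_an): the endpoint for 2 < p < 3, definitions

Notation of project RG (Pool/Agent/Helper20/RG: `Graph`, `Gap`, `Y`, `Z`, `Yh`, `Zh`, `Sys`, `Fam`, `mm`, `tm`, `ce`, `Sa`,
`arc`, `Loc`) and `elt`, `GapP` of Pool/Agent/Helper68/EP/St6.
-/

set_option autoImplicit false

open MeasureTheory Set Filter Topology
open scoped ENNReal RealInnerProductSpace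

namespace Pool.Agent.Helper20.EQ

open Pool.Agent.Helper68.LM (Pl BB Bd Av HL ft fm DQ)
open Pool.Agent.Helper20.RG
open Pool.Agent.Helper68.EP (elt GapP)

/-- slope of the chord `j` of class `u` -/
noncomputable def sl (τ : ℝ → ℝ) (u j : ℕ) : ℝ := τ (tm u j)

/-- box scale of the parent chord -/
noncomputable def mp (τ : ℝ → ℝ) (u j : ℕ) : ℕ := mm τ (u - 1) (j / 2)

/-- the operator of the chord `j` of class `u`, length `2^(k+w)` -/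
noncomputable def Zc (c : Pl) (φ τ : ℝ → ℝ) (u w : ℕ) (k : ℤ) (j : ℕ) (g : Pl → ℝ) (x : Pl) : ℝ :=
  Z (sl τ u j) (ce c φ u j) (mm τ u j) (mp τ u j) ((2 : ℝ) ^ w) k g x

/-- number of chords of class `u` whose slope is within `2^(-i)` of `θ` -/
noncomputable def nn (τ : ℝ → ℝ) (u : ℕ) (θ : ℝ) (i : ℕ) : ℕ :=
  {j : ℕ | j < 2 ^ u ∧ |sl τ u j - θ| ≤ (2 : ℝ) ^ (-(i : ℤ))}.ncard

/-- the last scale at which at least `Y` chords of class `u` are near the slope `θ` (`0` if there is none) -/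
noncomputable def Wt (τ : ℝ → ℝ) (u : ℕ) (Y θ : ℝ) : ℕ := sSup {W : ℕ | Y ≤ (nn τ u θ W : ℝ)}

/-- the slope `θ` such that `|⟪E s, ξ⟫| = |ξ 1| |s - θ|`, and `10` if `ξ` is not steep -/
noncomputable def th (ξ : Pl) : ℝ := if ‖ξ‖ / 4 ≤ |ξ 1| then -(ξ 0 / ξ 1) else 10

/-- uniform probability measure on the segment `{t e : |t| ≤ 1/2}`; `sg s = sge (E s)` -/
noncomputable def sge (e : Pl) : Measure Pl :=
  (volume.restrict (Icc (-(1 / 2) : ℝ) (1 / 2))).map (fun t => t • e)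

/-- maximal difference of the chord operators of lengths `1, 2, .., 2^V` -/
noncomputable def MD (s : ℝ) (c : Pl) (m m' V : ℕ) (k : ℤ) (g : Pl → ℝ) (x : Pl) : ℝ≥0∞ :=
  (Finset.range (V + 1)).sup fun w =>
    ‖Z s c m m' ((2 : ℝ) ^ w) k g x - Z s c m m' ((2 : ℝ) ^ 0) k g x‖ₑ

/-- multiplier of `MD` -/
noncomputable def Psi (s : ℝ) (m m' V : ℕ) (ξ : Pl) : ℝ :=
  min 1 (‖ξ‖ * (2 : ℝ) ^ (-(m' : ℤ))) * min 1 ((2 : ℝ) ^ m / ‖ξ‖) *
    (min 1 ((2 : ℝ) ^ V * |⟪E s, ξ⟫|) * (1 / (1 + |⟪E s, ξ⟫|)))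

/-- multiplier of one operator -/
noncomputable def Pso (s : ℝ) (m m' : ℕ) (ξ : Pl) : ℝ :=
  min 1 (‖ξ‖ * (2 : ℝ) ^ (-(m' : ℤ))) * min 1 ((2 : ℝ) ^ m / ‖ξ‖) * (1 / (1 + |⟪E s, ξ⟫|))

/-- average over a cell (parallelogram) with centre `x`, direction `E s`, parameter length `2^k la`, vertical side
`2^(k-A) mu`; `A` is called the aspect -/
noncomputable def CA (s la mu : ℝ) (k : ℤ) (A : ℕ) (g : Pl → ℝ) (x : Pl) : ℝ :=
  Av (sge (pt 0 1)) ((2 : ℝ) ^ (k - (A : ℤ)) * mu) (Av (sg s) ((2 : ℝ) ^ k * la) g) x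

/-- the cell itself -/
def Cel (s la mu : ℝ) (k : ℤ) (A : ℕ) (z : Pl) : Set Pl :=
  {y | |y 0 - z 0| ≤ la * (2 : ℝ) ^ k / 2 ∧ |pr s (y - z)| ≤ mu * (2 : ℝ) ^ (k - (A : ℤ)) / 2}

/-- maximal difference of the cell averages of aspects `0, .., V` -/
noncomputable def MC (s la mu : ℝ) (V : ℕ) (k : ℤ) (g : Pl → ℝ) (x : Pl) : ℝ≥0∞ :=
  (Finset.range (V + 1)).sup fun A => ‖CA s la mu k A g x - CA s la mu k 0 g x‖ₑ

/-- multiplier of `MC` -/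
noncomputable def Tht (s : ℝ) (V : ℕ) (ξ : Pl) : ℝ :=
  min 1 |ξ 1| * min 1 ((2 : ℝ) ^ V / |ξ 1|) * (1 / (1 + |⟪E s, ξ⟫|))

/-- `2^(-Aa) ≤ |s - s'| < 2^(1-Aa)` (if `0 < |s - s'| < 1`) -/
noncomputable def Aa (s s' : ℝ) : ℕ := ⌈-(Real.logb 2 |s - s'|)⌉₊

/-- the gap of the windows for the pair of slopes `s`, `s'` and thresholds `≥ 2^(-h)` -/
noncomputable def ga (s s' : ℝ) (h : ℕ) : ℕ := 16 * (Aa s s' + h + 10)

/-- the part of `g` of height between `2^j` and `2^(j+1)`, normalised; its values are `0` or in `[1/2, 1)` -/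
noncomputable def lev (g : Pl → ℝ) (j : ℤ) (x : Pl) : ℝ :=
  if (2 : ℝ) ^ j ≤ g x ∧ g x < (2 : ℝ) ^ (j + 1) then g x / (2 : ℝ) ^ (j + 1) else 0

end Pool.Agent.Helper20.EQ
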