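import Pool.Agent.Helper20.EQ.Defs

/-!
# Project EQ (MP_cb927e_an): definitions, part 2
-/

set_option autoImplicit false

open MeasureTheory Set Filter Topology
open scoped ENNReal RealInnerProductSpace

namespace Pool.Agent.Helper20.EQ

open Pool.Agent.Helper68.LM (Pl BB Bd Av HL ft fm DQ)
open Pool.Agent.Helper20.RG
open Pool.Agent.Helper68.EP (elt GapP)

/-- sum of squares of the chord operators of class `u` -/
noncomputable def MI (c : Pl) (φ τ : ℝ → ℝ) (u : ℕ) (g : Pl → ℝ) : ℝ≥0∞ :=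
  ∑' k : ℤ, ∑ j ∈ Finset.range (2 ^ u), ∫⁻ x, ‖Zc c φ τ u 0 k j g x‖ₑ ^ 2

/-- sum of squares of the maximal differences (bunches of `Y` chords) -/
noncomputable def BU (c : Pl) (φ τ : ℝ → ℝ) (Y : ℝ) (h u : ℕ) (g : Pl → ℝ) : ℝ≥0∞ :=
  ∑' k : ℤ, ∑ j ∈ Finset.range (2 ^ u), ∫⁻ x, MD (sl τ u j) (ce c φ u j) (mm τ u j) (mp τ u j)
    (10000 * (Wt τ u Y (sl τ u j) + h)) k g x ^ 2

/-- sum of squares of the maximal differences of cell averages -/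
noncomputable def WR (τ : ℝ → ℝ) (Y la mu : ℝ) (u : ℕ) (g : Pl → ℝ) : ℝ≥0∞ :=
  ∑' k : ℤ, ∑ j ∈ Finset.range (2 ^ u), ∫⁻ x, MC (sl τ u j) la mu
    (Wt τ u Y (sl τ u j) + u + 1) k g x ^ 2

/-- the set of hits of class `u` with threshold `2^(-ρ-1)` -/
def Hh (c : Pl) (φ τ : ℝ → ℝ) (u ρ : ℕ) (k : ℤ) (g : Pl → ℝ) (x : Pl) : Set ℕ :=
  {j : ℕ | j < 2 ^ u ∧ (2 : ℝ) ^ (-((ρ : ℤ) + 1)) ≤ |Zc c φ τ u 0 k j g x|}

/-- good points of the level `2^l` -/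
def Gd (R₀ : ℝ) (l : ℤ) (f : Pl → ℝ) (x : Pl) : Prop :=
  HL R₀ (fun y => f y ^ 2) x ≤ ENNReal.ofReal ((4 : ℝ) ^ l)

/-- persistence class `b` at the point `x`, list of lengths with parameter `v` (project RG: `v = u`) -/
def Pv (Zf : ℕ → ℤ → ℕ → Pl → ℝ) (u v : ℕ) (η : ℝ) (b : ℕ) (k : ℤ) (x : Pl) : Set ℕ :=
  {j | j < 2 ^ u ∧ (∀ b' < b, ∀ l ≤ 16 * v, η / 2 ≤ |Zf (om v b' l) k j x|) ∧
    (b ≤ 3 * v → ∃ l < 16 * v, η / (2 * Ms v) ≤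
      |Zf (om v b l) k j x - Zf (om v b (l + 1)) k j x|)}

/-- bound for the number of slopes within `2^(-γ/16)`, `γ = 2^(b-1) 64 v` -/
noncomputable def nv (u v b : ℕ) (A σ : ℝ) : ℝ :=
  1 + (2 : ℝ) ^ u * (A * ((2 : ℝ) ^ (b + 1) * v) ^ (-(1 / σ)))

end Pool.Agent.Helper20.EQ
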