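import Pool.Agent.Helper20.EQ.Defs2

/-!
# Project EQ (MP_cb927e_an): definitions, part 3 (numbers)
-/

set_option autoImplicit false

open MeasureTheory Set Filter Topology
open scoped ENNReal RealInnerProductSpace

namespace Pool.Agent.Helper20.EQ

open Pool.Agent.Helper68.LM (Pl BB Bd Av HL ft fm DQ)
open Pool.Agent.Helper20.RG
open Pool.Agent.Helper68.EP (elt GapP)

/-- the small number `ε₁` -/
noncomputable def e1 (p : ℝ) : ℝ := (3 - p) / 100

/-- the small number `δ` -/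
noncomputable def dl (p : ℝ) : ℝ := (3 - p) / 2000

/-- the exponent of `2` in the bounds for one class -/
noncomputable def tg (p : ℝ) (u t ρ : ℕ) : ℝ := p * u - p * ((t : ℝ) - ρ) - e1 p * t

/-- the numerical situation: class `u`, list of lengths with parameter `v`, type `(t, ρ)`, threshold `η`, number of
hits `m₁` -/
def Nu (p : ℝ) (Cρ u v t ρ : ℕ) (η m₁ : ℝ) : Prop :=
  2 ≤ u ∧ v = (Cρ + 1) * u ∧ (u : ℝ) ≤ (2 : ℝ) ^ (dl p * t) ∧ (1 - e1 p) * t ≤ u ∧ ρ ≤ Cρ * t ∧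
    η = (2 : ℝ) ^ (-((ρ : ℤ) + 2)) ∧ m₁ = (2 : ℝ) ^ ((1 - e1 p) * t) / (2 * (3 * v + 2))

end Pool.Agent.Helper20.EQ
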