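import Pool.Agent.Helper20.EQ.Defs

/-!
# Project EQ (MP_cb927e_an): interface statements, part 1 (counting, sums over the classes, maximal functions, multipliers)

Every statement is a `Prop` proved in a module of its own; complete proofs are in the docstrings.  `C` are absolute constants.
Statements `StPT`, `StSINC`, `StMEA`, `StYB`, `StYC`, `StYL`, `StMB`, `StSC`, `StSUF`, `StOCT`, `StSYS`, `StMM`, `StL2A`, ... are those of project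
RG (all proved, see Pool/Agent/Helper20/RG/Asm.lean, namespace `Pool.Agent.Helper20.RG`, theorems `pPT`, ...).
-/

set_option autoImplicit false

open MeasureTheory Set Filter Topology
open scoped ENNReal RealInnerProductSpace

namespace Pool.Agent.Helper20.EQ

open Pool.Agent.Helper68.LM (Pl BB Bd Av HL ft fm DQ)
open Pool.Agent.Helper20.RG
open Pool.Agent.Helper68.EP (elt GapP)

/-! ## Counting chords -/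

/-- CN (about 150 lines), counting.  `τ` is nondecreasing (Graph: `τ t (t' - t) ≤ τ t' (t' - t)`), so `T = {t ∈ [0,1] : |τ t - θ| ≤ 2^(-i)}` is an interval, of length
`elt τ θ i`.  The midpoints `tm u j = (j + 1/2)/2^u`, `j < 2^u`, which lie in `T` are consecutive, `j₁, .., j₂`, and `[tm u j₁, tm u j₂] ⊆ T`: `(j₂ - j₁)/2^u ≤ elt`.  Conversely
an interval `T ⊆ [0,1]` of length `l` contains at least `2^u l - 1` of the points `tm u j` (spacing `2^(-u)`; the first and the last one have distance `2^(-u)/2` from `0` and `1`).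
`elt ≤ 1`, monotone: inclusions of sets (all contained in `Icc 0 1`).  Hypotheses: none. -/
def StCN : Prop :=
  ∀ (φ τ : ℝ → ℝ), Graph φ τ → ∀ (u i : ℕ) (θ : ℝ),
    (nn τ u θ i : ℝ) ≤ 1 + (2 : ℝ) ^ u * elt τ θ i ∧ (2 : ℝ) ^ u * elt τ θ i ≤ nn τ u θ i + 1 ∧
    0 ≤ elt τ θ i ∧ elt τ θ i ≤ 1 ∧ elt τ θ (i + 1) ≤ elt τ θ i ∧ nn τ u θ (i + 1) ≤ nn τ u θ i ∧
    ∀ θ' : ℝ, |θ - θ'| ≤ (2 : ℝ) ^ (-((i + 1 : ℕ) : ℤ)) →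
      elt τ θ (i + 1) ≤ elt τ θ' i ∧ nn τ u θ (i + 1) ≤ nn τ u θ' i

/-- CQ (about 200 lines), chords.  MM: `trn τ u a ≤ 2^(u - mm)`; for `t` in the dyadic interval `[a/2^u, (a+1)/2^u]` (and for the neighbours `tm u (a±1)`, if they exist)
`|τ t - sl τ u a| ≤ trn τ u a`.  (1) so for `i + u ≤ mm` these are `≤ 2^(-i)`: `elt ≥ 2^(-u)`, and `a` and a neighbour (`2^u ≥ 2`) count.  (2) `ce` differ by `(t - t', φ t - φ t')`; if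
`t' ≤ t` then `τ t' (t - t') ≤ φ t - φ t' ≤ τ t (t - t')` (Graph) and `|t - t'| ≤ 1`; symmetric.  (3) for `t` in the dyadic interval: `|τ t - θ| ≤ 2^(u-mm) + 2^(-i) ≤ 2^(u-i) + 2^(-i) ≤ 2^(-(i-u-1))`,
so `elt τ θ (i-u-1) ≥ 2^(-u)`; CN for `u'`.  (4) CN: `nn τ u θ (i+1) - 1 ≤ 2^u elt τ θ (i+1) ≤ 2^u elt τ θ' i`, `nn τ u' θ' i ≥ 2^u' elt τ θ' i - 1`.  Hypotheses: hMM, hCN. -/
def StCQ : Prop :=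
  ∀ (φ τ : ℝ → ℝ) (A σ : ℝ) (c : Pl), Graph φ τ → Gap A σ τ → 0 < A → 0 < σ → ∀ u : ℕ, 1 ≤ u →
    (∀ a : ℕ, a < 2 ^ u →
      (∀ i : ℕ, i + u ≤ mm τ u a → 1 / (2 : ℝ) ^ u ≤ elt τ (sl τ u a) i ∧ 2 ≤ nn τ u (sl τ u a) i) ∧
      (∀ u' b i : ℕ, 1 ≤ u' → b < 2 ^ u' → |sl τ u a - sl τ u' b| ≤ (2 : ℝ) ^ (-(i : ℤ)) →
        |(ce c φ u a - ce c φ u' b) 0| ≤ 1 ∧
        |pr (sl τ u a) (ce c φ u a - ce c φ u' b)| ≤ (2 : ℝ) ^ (-(i : ℤ)) ∧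
        |pr (sl τ u' b) (ce c φ u a - ce c φ u' b)| ≤ (2 : ℝ) ^ (-(i : ℤ))) ∧
      (∀ (u' i : ℕ) (θ : ℝ), u ≤ u' → u + 1 ≤ i → i ≤ mm τ u a → |sl τ u a - θ| ≤ (2 : ℝ) ^ (-(i : ℤ)) →
        (2 : ℝ) ^ (u' - u) - 1 ≤ nn τ u' θ (i - u - 1))) ∧
    (∀ (u' i : ℕ) (θ θ' : ℝ), u ≤ u' → |θ - θ'| ≤ (2 : ℝ) ^ (-((i + 1 : ℕ) : ℤ)) →
      ((nn τ u θ (i + 1) : ℝ) - 1) * (2 : ℝ) ^ (u' - u) - 1 ≤ nn τ u' θ' i)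

/-- WT (about 200 lines).  The set `{W | Y ≤ nn τ u θ W}` is bounded: `1 ≤ Y - 1 ≤ 2^u elt τ θ W` (CN), and `W · elt τ θ W ^ p ≤ ∑_{i=1}^{W} elt τ θ i ^ p ≤ A` (elt decreasing), so `W ≤ A 2^(pu)`.
(1) `le_csSup`; (2) `Nat.sSup_mem` (the set is nonempty, since otherwise `Wt = 0`); (3) if `W' = Wt θ' ≥ Wt θ + 2` then `Y ≤ nn θ' W' ≤ nn θ' (Wt θ + 2) ≤ nn θ (Wt θ + 1)` (CN, `T ≥ Wt θ + 2`), so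
`Wt θ + 1 ≤ Wt θ` by (1), absurd.  (4) `nn` is decreasing: `Y ≤ nn θ (Wt) ≤ nn θ i ≤ 1 + 2^u elt`, `Y - 1 ≥ Y/2`.  (5) if `mm > u`: CQ (1) with `i = mm - u`, then (1).  (6) Let `B` be this set of indices,
`W_a = Wt τ u Y (sl τ u a) + 1`; `nn τ u (sl τ u a) W_a < Y` by (1).  Among the `a ∈ B` with `sl τ u a ≥ θ` take the one, `a₁`, with the largest slope; all of them satisfy
`|sl τ u a - sl τ u a₁| ≤ |sl τ u a₁ - θ| ≤ 2^(-W_a₁)`, so there are fewer than `Y`.  The same for `sl τ u a < θ`.  Hypotheses: hCN, hCQ (with `Gap` from `StGPG`, Helper68.EP, here `hGPG`). -/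
def StWT : Prop :=
  ∀ (φ τ : ℝ → ℝ) (A p : ℝ), Graph φ τ → 0 < A → GapP A p τ → 1 < p → ∀ (u : ℕ) (Y θ : ℝ), 1 ≤ u → 2 ≤ Y →
    (∀ W : ℕ, Y ≤ (nn τ u θ W : ℝ) → W ≤ Wt τ u Y θ) ∧
    (1 ≤ Wt τ u Y θ → Y ≤ (nn τ u θ (Wt τ u Y θ) : ℝ)) ∧
    (∀ (T : ℕ) (θ' : ℝ), Wt τ u Y θ + 2 ≤ T → |θ - θ'| ≤ (2 : ℝ) ^ (-(T : ℤ)) →
      Wt τ u Y θ' ≤ Wt τ u Y θ + 1) ∧
    (∀ i : ℕ, 1 ≤ i → i ≤ Wt τ u Y θ → Y / 2 ≤ (2 : ℝ) ^ u * elt τ θ i) ∧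
    (∀ j : ℕ, j < 2 ^ u → mm τ u j ≤ Wt τ u 2 (sl τ u j) + u) ∧
    ({a : ℕ | a < 2 ^ u ∧ |sl τ u a - θ| ≤
      (2 : ℝ) ^ (-((Wt τ u Y (sl τ u a) + 1 : ℕ) : ℤ))}.ncard : ℝ) ≤ 2 * Y

/-- SS (about 120 lines), sums over the classes.  Exchange the sums.  For fixed `i` with `l = L (i+1) > 0` let `u₀` be the least `u` with `y ≤ 2^u l`; `∑_{u ≥ u₀} 2^(-pu) ≤ C 2^(-p u₀) ≤ C (l/y)^p`, and
`∑_{u ≥ u₀} 2^((1-p)u) l ≤ C 2^((1-p) u₀) l ≤ C (y/l)^(1-p) l = C y^(1-p) l^p`.  Then sum over `i` (partial sums are bounded by `A`).  Hypotheses: none. -/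
def StSS : Prop :=
  ∀ p : ℝ, 1 < p → ∃ C : ℝ, 0 < C ∧ ∀ (L : ℕ → ℝ) (A y : ℝ), (∀ i, 0 ≤ L i ∧ L i ≤ 1) →
    (∀ n : ℕ, ∑ i ∈ Finset.range n, L (i + 1) ^ p ≤ A) → 0 < y →
    (∑' (u : ℕ) (i : ℕ), ENNReal.ofReal (if y ≤ (2 : ℝ) ^ u * L (i + 1) then (2 : ℝ) ^ (-(p * u)) else 0) ≤
      ENNReal.ofReal (C * A * y ^ (-p))) ∧
    (∑' (u : ℕ) (i : ℕ), ENNReal.ofReal (if y ≤ (2 : ℝ) ^ u * L (i + 1) then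
      (2 : ℝ) ^ ((1 - p) * u) * L (i + 1) else 0) ≤ ENNReal.ofReal (C * A * y ^ (1 - p)))

/-! ## Maximal functions in one direction -/

/-- MX0 (about 250 lines), the maximal theorem on the line.  `∫⁻ t in Icc (-1/2) (1/2), f (x - 2^w l t) = (2^w l)⁻¹ ∫⁻_{|y-x| ≤ 2^w l/2} f`.  Weak type: let `F` be the supremum and `lam > 0`; every `x` with
`lam < F x` has a closed interval of centre `x` and length `2^w l ≤ 2^V l` with `∫ f > lam · length`; Vitali's covering theorem (`Vitali.exists_disjoint_subfamily_covering_enlargement_closedBall`)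
gives `vol {lam < F} ≤ (5/lam) ∫ f` (if `∫ f < ∞`, otherwise trivial).  With `f = f 1_{f ≤ lam/2} + f 1_{f > lam/2}`: `vol {lam < F} ≤ (10/lam) ∫_{f > lam/2} f`; multiply by `2 lam` and integrate: `∫ F² ≤ 40 ∫ f²`
(compare `Helper68.LM.StHLW`, `StHLS`, proofs in the modules M_HLW, M_HLS of LM).  Hypotheses: none. -/
def StMX0 : Prop :=
  ∃ C : ℝ, 0 < C ∧ ∀ (f : ℝ → ℝ≥0∞) (l : ℝ) (V : ℕ), Measurable f → 0 < l →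
    ∫⁻ x, ((Finset.range (V + 1)).sup fun w =>
      ∫⁻ t in Icc (-(1 / 2) : ℝ) (1 / 2), f (x - (2 : ℝ) ^ w * l * t)) ^ 2 ≤
      ENNReal.ofReal C * ∫⁻ x, f x ^ 2

/-- MX1 (about 150 lines), transference to the plane.  `f = ‖h‖ₑ`, `R = 2^V l`, `F x` = supremum of `∫⁻ t in Icc, f (x - 2^w l t e)`; `‖Av (sge e) ..‖ₑ ≤` this.  By translation invariance and Tonelli
`∫ F² = (1/2R) ∫_x ∫_{|r| ≤ R} F(x + r e)² dr`; for fixed `x` put `f_x(r) = f(x + r e)` for `|r| ≤ 2R` and `0` otherwise; for `|r| ≤ R`, `F(x + r e)` is the supremum of MX0 for `f_x` at `r`.  So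
`∫ F² ≤ (C/2R) ∫_x ∫_{|r| ≤ 2R} f(x + r e)² = 2C ∫ f²`.  Hypotheses: hMX0. -/
def StMX1 : Prop :=
  ∃ C : ℝ, 0 < C ∧ ∀ (e : Pl) (h : Pl → ℝ) (l : ℝ) (V : ℕ), BB h → 0 < l →
    ∫⁻ x, ((Finset.range (V + 1)).sup fun w => ‖Av (sge e) ((2 : ℝ) ^ w * l) h x‖ₑ) ^ 2 ≤
      ENNReal.ofReal C * ∫⁻ x, ‖h x‖ₑ ^ 2

/-- SGE (about 60 lines).  As in MEA (project RG) for `sg s`: mass one, contained in the ball of radius `‖e‖/2 ≤ 1`, `fm (sge e) ξ = ∫_{-1/2}^{1/2} exp(-2πi t ⟪e, ξ⟫) dt` (`integral_map`), SINC.  `sg s = sge (E s)` by definition.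
Hypotheses: hSINC. -/
def StSGE : Prop :=
  (∀ e : Pl, ‖e‖ ≤ 2 → Bd 1 1 (sge e) ∧ sge e univ = 1) ∧
  (∀ e ξ : Pl, fm (sge e) ξ = ((Real.sinc (Real.pi * ⟪e, ξ⟫) : ℝ) : ℂ)) ∧ ∀ s : ℝ, sg s = sge (E s)

/-- MXL (about 300 lines), maximal difference.  Write `B_w = Av (sge e) (2^w l)`; `b = l |⟪e, ξ⟫|`; `B_w` has the multiplier `sinc(π 2^w l ⟪e,ξ⟫)` (SGE, `Helper68.LM.StFA`), of absolute value `≤ min(1, 1/(π 2^w b))`, and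
`|1 - sinc(π 2^w l ⟪e,ξ⟫)| ≤ min(2, π 2^w b)`.  `B_w h - B_0 h = T₁ + T₂ + T₃ + T₄`, `T₁ = B_w (h - B_0 h)`, `T₂ = B_w (B_0 h - B_V B_0 h)`, `T₃ = B_w B_V B_0 h - B_V B_0 h`, `T₄ = B_V B_0 h - B_0 h` (linearity only).
Put `Φ = min(1, 2^V b)/(1 + b)`.  `T₁`: `sup ≤ (∑_{w ≤ V} |T₁|²)^(1/2)`, multiplier of the sum of squares `min(2, πb)² ∑_{w ≤ V} min(1, 1/(π 2^w b))²`: for `b ≥ 1` at most `C/b² ≤ C Φ`; for `b < 1 < 2^V b`: `C b² (log₂(1/b) + 2) ≤ C`; for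
`2^V b ≤ 1`: `C b² (V+1) ≤ C 2^V b`.  `T₂`: MX1 and Plancherel (`Helper68.LM.StPL`) for `B_0 h - B_V B_0 h`: multiplier squared `≤ min(1, 1/b)² min(2, π 2^V b)² ≤ C Φ`.  `T₃`: sum of squares,
`min(1, 1/b)² min(1, 1/(2^V b))² ∑_{w ≤ V} min(2, π 2^w b)²`: for `2^V b ≤ 1` at most `C (2^V b)²`; for `b ≤ 1 < 2^V b` at most `C (log₂(2^V b) + 2)/(2^V b)² ≤ C`; for `b > 1` at most `C (V+1)/(b 2^V b)² ≤ C/b²`.  `T₄`: as `T₂`.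
`(a+b+c+d)² ≤ 4(a²+b²+c²+d²)`.  The constant is absolute.  Hypotheses: hSGE, hMX1 (and the theorems `StBBC`, `StFA`, `StPL`, `StFS` of LM). -/
def StMXL : Prop :=
  ∃ C : ℝ, 0 < C ∧ ∀ (e : Pl) (h : Pl → ℝ) (l : ℝ) (V : ℕ), ‖e‖ ≤ 2 → BB h → 0 < l →
    ∫⁻ x, ((Finset.range (V + 1)).sup fun w =>
      ‖Av (sge e) ((2 : ℝ) ^ w * l) h x - Av (sge e) l h x‖ₑ) ^ 2 ≤
    ∫⁻ ξ, ENNReal.ofReal (C * (min 1 ((2 : ℝ) ^ V * (l * |⟪e, ξ⟫|)) * (1 / (1 + l * |⟪e, ξ⟫|)))) *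
      ‖ft h ξ‖ₑ ^ 2

/-- KD (about 120 lines).  `κ_m ζ = sinc(2π 2^(-m) ζ 0) sinc(2π 2^(-m) ζ 1)`, `κ_m - κ_m'` is `≤ 2`, `≤ C ‖ζ‖ 2^(-m')` and `≤ C 2^m/‖ζ‖` (as in MB of project RG).  As `m' ≤ m`, one of the two numbers
`min 1 (‖ζ‖ 2^(-m'))`, `min 1 (2^m/‖ζ‖)` is `1` (if `‖ζ‖ ≤ 2^m` the second, otherwise the first), so `|κ_m - κ_m'| ≤ C ·` product.  `|sinc(π l b)| ≤ min(1, 1/(π b)) ≤ 2/(1+|b|)` for `l ≥ 1`.  Second clause: the Fourier transform of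
`Av bx (2·2^(k-m)) g - Av bx (2·2^(k-m')) g` is `(κ_m - κ_m')(2^k ξ) ft g ξ` (MEA, `Helper68.LM.StFA`).  Hypotheses: hPT, hSINC, hMEA. -/
def StKD : Prop :=
  ∃ C : ℝ, 0 < C ∧
    (∀ (s : ℝ) (c : Pl) (m m' : ℕ) (l : ℝ) (ξ : Pl), m' ≤ m → 1 ≤ l → ξ ≠ 0 →
      ‖Zh s c m m' l ξ‖ ≤ C * Pso s m m' ξ) ∧
    ∀ (m m' : ℕ) (k : ℤ) (g : Pl → ℝ) (ξ : Pl), m' ≤ m → BB g → ξ ≠ 0 →
      ‖ft (fun x => Av bx (2 * (2 : ℝ) ^ (k - (m : ℤ))) g x - Av bx (2 * (2 : ℝ) ^ (k - (m' : ℤ))) g x) ξ‖ ≤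
        C * (min 1 (‖(2 : ℝ) ^ k • ξ‖ * (2 : ℝ) ^ (-(m' : ℤ))) * min 1 ((2 : ℝ) ^ m / ‖(2 : ℝ) ^ k • ξ‖)) *
          ‖ft g ξ‖

/-- MXJ (about 150 lines).  `h = Av bx (2·2^(k-m)) g - Av bx (2·2^(k-m')) g` is `BB` and `Z s c m m' (2^w) k g x = Av (sg s) (2^k 2^w) h (x - 2^k c)` (linearity of `Av (sg s)`); `∫ dx` is translation invariant.  MXL with `e = E s`
(`‖E s‖ ≤ 2`), `l = 2^k`, and KD (the square of the product of the two minima is at most the product).  `l ⟪E s, ξ⟫ = ⟪E s, 2^k ξ⟫`.  Hypotheses: hPT, hMXL, hKD, hSGE, hYB. -/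
def StMXJ : Prop :=
  ∃ C : ℝ, 0 < C ∧ ∀ (s : ℝ) (c : Pl) (m m' V : ℕ) (k : ℤ) (g : Pl → ℝ), |s| ≤ 1 → m' ≤ m → BB g →
    ∫⁻ x, MD s c m m' V k g x ^ 2 ≤
      ∫⁻ ξ, ENNReal.ofReal (C * Psi s m m' V ((2 : ℝ) ^ k • ξ)) * ‖ft g ξ‖ₑ ^ 2

/-- WRJ (about 150 lines).  `h = Av (sg s) (2^k la) g` (`BB`), `e = pt 0 1`, `l = 2^(k-V) mu`: `CA s la mu k A g = Av (sge e) (2^(V-A) l) h`; `|CA_A - CA_0| ≤ |B_(V-A) h - B_0 h| + |B_V h - B_0 h|`, so `MC ≤ 2 sup_w |B_w h - B_0 h|`.  MXL: `b = 2^(k-V) mu |ξ 1|`;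
`min(1, 2^V b) ≤ mu min(1, |ζ 1|)`, `1/(1+b) ≤ min(1, 1/b) ≤ min(1, 2^V/|ζ 1|)` (`ζ = 2^k ξ`, `mu ≥ 1`; if `ζ 1 = 0` both sides vanish), and `|ft h ξ|² = sinc(π la ⟪E s, ζ⟫)² |ft g ξ|²`, `sinc² ≤ 4/(1+|⟪E s, ζ⟫|)` (`la ≥ 1`).
Hypotheses: hPT, hMXL, hSGE. -/
def StWRJ : Prop :=
  ∃ C : ℝ, 0 < C ∧ ∀ (s la mu : ℝ) (V : ℕ) (k : ℤ) (g : Pl → ℝ), |s| ≤ 1 → 1 ≤ la → 1 ≤ mu → BB g →
    ∫⁻ x, MC s la mu V k g x ^ 2 ≤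
      ∫⁻ ξ, ENNReal.ofReal (C * mu * Tht s V ((2 : ℝ) ^ k • ξ)) * ‖ft g ξ‖ₑ ^ 2

/-! ## Multiplier sums for one class -/

/-- PSM (about 80 lines).  `y ≤ Pso_j` implies `y ≤ ‖ξ‖ 2^(-m')` and `1 · |⟪E s, ξ⟫| ≤ 1/y`: SC with `ℓ = 1` gives `#{y ≤ Pso_j} ≤ C (1 + 1/(2^u y²))`; SUF with `B = 1/2^u`.  Hypotheses: hSC, hSUF. -/
def StPSM : Prop :=
  ∀ C₀ : ℝ, 0 < C₀ → ∃ C : ℝ, 0 < C ∧ ∀ (u : ℕ) (s : ℕ → ℝ) (c : ℕ → Pl) (m m' : ℕ → ℕ) (R : ℝ) (K : ℕ)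
    (A σ : ℝ), Sys u s c m m' C₀ R K A σ → ∀ ξ : Pl, ξ ≠ 0 →
      ∑ j ∈ Finset.range (2 ^ u), Pso (s j) (m j) (m' j) ξ ≤ C

/-- OCN (about 250 lines).  `r = ‖ξ‖`.  If `r/4 ≤ |ξ 1|` then `θ = th ξ = -ξ 0/ξ 1` and `⟪E s, ξ⟫ = ξ 0 + s ξ 1 = ξ 1 (s - θ)`; if `|ξ 1| < r/4` then `|⟪E s, ξ⟫| ≥ |ξ 0| - |ξ 1| ≥ r/2` for `|s| ≤ 1`, `θ = 10` and no `j` is near.  So for every
`j` which is not near (`|s j - θ| > 2^(-T)`): `|⟪E (s j), ξ⟫| ≥ 2^(-T) r/4`.  The far part: OCT for `f k = ∑_{far} Psi (2^k ξ)`, `p = -u`, `q = T + u + 2`: `Psi ≤ Pso`, bounded by PSM; for `2^k r ≤ 2^(-u)` at most `2^u 2^k r`; for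
`2^k r ≥ 2^(T+u+2)` at most `2^u/(2^k 2^(-T-2) r)`.  Every near `j`: with `b = |⟪E (s j), ξ⟫| ≠ 0` OCT for `f k = Psi_j (2^k ξ)`, `r ↦ b`, `p = -V j`, `q = 0`: `≤ C (V j + 8)`; for `b = 0` it is `0`.  Hypotheses: hPT, hPSM, hOCT. -/
def StOCN : Prop :=
  ∀ C₀ : ℝ, 0 < C₀ → ∃ C : ℝ, 0 < C ∧ ∀ (u : ℕ) (s : ℕ → ℝ) (c : ℕ → Pl) (m m' : ℕ → ℕ) (R : ℝ) (K : ℕ)
    (A σ : ℝ), Sys u s c m m' C₀ R K A σ → ∀ (V : ℕ → ℕ) (T : ℕ) (ξ : Pl), ξ ≠ 0 →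
      ∑' k : ℤ, ∑ j ∈ Finset.range (2 ^ u), ENNReal.ofReal (Psi (s j) (m j) (m' j) (V j) ((2 : ℝ) ^ k • ξ)) ≤
        ENNReal.ofReal (C * (T + u + 1 + ∑ j ∈ (Finset.range (2 ^ u)).filter
          (fun j => |s j - th ξ| ≤ (2 : ℝ) ^ (-(T : ℤ))), ((V j : ℝ) + 1)))

/-- MIM (about 220 lines).  `θ = th ξ`, `κ` = the number on the right; the set is `{1, .., κ}` as `elt` is decreasing (it is finite: WT's argument `i ≤ A 2^(pu)`).  Put `T = κ + 2`.  If `|sl τ u j - θ| ≤ 2^(-T)` (near) then `mm τ u j < T + u`: otherwise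
CQ (1) with `i = T` gives `2^(-u) ≤ elt τ (sl τ u j) T ≤ elt τ θ (T-1)` (CN), `T - 1 = κ + 1`, a contradiction.  There is at most one near `j` (`nn τ u θ T ≤ 1 + 2^u elt τ θ T < 2`).  Near `j`: OCT for `Pso_j (2^k ξ)`, `r = ‖ξ‖`, `p = 0`, `q = T + u`
(`Pso ≤ 1`, `≤ ‖·‖`, `≤ 2^(T+u)/‖·‖`).  Far `j`: as in OCN (PSM, `Pso ≤ 1/(1+|⟪E s, ·⟫|)`), `p = -u`, `q = T + u + 2`.  Sum `≤ C (T + u + 1)`.  `Sys` from SYS with `σ = p`.  Hypotheses: hPT, hPSM, hOCT, hCN, hCQ, hSYS, hGPG. -/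
def StMIM : Prop :=
  ∀ (φ τ : ℝ → ℝ) (A p : ℝ), Graph φ τ → 0 < A → GapP A p τ → 1 < p → ∃ C : ℝ, 0 < C ∧
    ∀ u : ℕ, 2 ≤ u → ∀ ξ : Pl, ξ ≠ 0 →
      ∑' k : ℤ, ∑ j ∈ Finset.range (2 ^ u),
        ENNReal.ofReal (Pso (sl τ u j) (mm τ u j) (mp τ u j) ((2 : ℝ) ^ k • ξ)) ≤
        ENNReal.ofReal (C * (u + 1 + ({i : ℕ | 1 ≤ i ∧ 1 ≤ (2 : ℝ) ^ u * elt τ (th ξ) i}.ncard : ℝ)))

/-- the number `T` of BUN -/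
noncomputable def Tb (τ : ℝ → ℝ) (p : ℝ) (u : ℕ) (Y θ : ℝ) (h : ℕ) : ℕ :=
  ⌈((Wt τ u Y θ : ℝ) + h + 1) * Y ^ (p / (p + 1))⌉₊ + 2

/-- BNS (about 300 lines), numbers.  `β = p/(p+1)`, `w = Wt τ u Y θ + h + 1`, `T = Tb ≥ w Y^β ≥ w`, `T ≤ w Y^β + 3`.  For the `j` in the filter `Wt τ u Y (sl τ u j) ≤ Wt τ u Y θ + 1` (WT (3)), and there are at most `nn τ u θ T ≤ 1 + 2^u elt τ θ T` of them.
So the bracket is `≤ C (w Y^β + u + 1 + (1 + 2^u elt τ θ T) w)`.  (a) `∑ 2^(-pu) Wt Y^β ≤ Y^β ∑_u ∑_{1 ≤ i ≤ Wt} 2^(-pu) ≤ C A Y^(β-p)` by WT (4) and SS (first, `y = Y/2`), `β - p = -p²/(p+1)`; `∑_{2^u ≥ Y³} 2^(-pu) (h+1) Y^β ≤ C h Y^(β-3p)`.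
(b) `∑_{2^u ≥ Y³} 2^(-pu) (u+1) ≤ C Y^(1-3p)`.  (c) `w`: smaller than (a).  (d) `2^((1-p)u) w elt τ θ T`: if `2^u elt τ θ T ≤ Y^β` it is at most `2^(-pu) w Y^β`, see (a).  Otherwise `w ≤ Y^(-β) T` and
`T elt τ θ T ≤ ∑_{i=1}^T elt τ θ i 1[2^u elt τ θ i > Y^β]` (decreasing), so SS (second, `y = Y^β`) gives `Y^(-β) C A Y^(β(1-p)) = C A Y^(-βp)`, `βp = p²/(p+1)`.  The constant may depend on `A, p, C₅`.  Hypotheses: hCN, hWT, hSS. -/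
def StBNS : Prop :=
  ∀ (φ τ : ℝ → ℝ) (A p : ℝ), Graph φ τ → 0 < A → GapP A p τ → 1 < p → ∀ C₅ : ℕ, ∃ C : ℝ, 0 < C ∧
    ∀ (Y : ℝ) (h : ℕ) (θ : ℝ), 2 ≤ Y → 1 ≤ h →
      ∑' u : ℕ, (if 1 ≤ u ∧ Y ^ 3 ≤ (2 : ℝ) ^ u then ENNReal.ofReal ((2 : ℝ) ^ (-(p * u)) *
        (Tb τ p u Y θ h + u + 1 + ∑ j ∈ (Finset.range (2 ^ u)).filter
          (fun j => |sl τ u j - θ| ≤ (2 : ℝ) ^ (-(Tb τ p u Y θ h : ℤ))),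
            ((C₅ * (Wt τ u Y (sl τ u j) + h) : ℕ) + 1 : ℝ))) else 0) ≤
        ENNReal.ofReal (C * h * Y ^ (-(p ^ 2 / (p + 1))))

/-- WRM (about 350 lines), cells.  `N = 2^u`, `θ = th ξ`, `n(i) = nn τ u θ i`, `W = Wt τ u Y θ`.  Case `|ξ 1| < ‖ξ‖/4`: `|⟪E s, ζ⟫| ≥ ‖ζ‖/2` (`ζ = 2^k ξ`), `Tht ≤ min(1, ‖ζ‖)/(1 + ‖ζ‖/2)`, so the sum is `≤ C N`.  Case `|ξ 1| ≥ ‖ξ‖/4`: `|⟪E s, ζ⟫| = |ζ 1||s - θ|`.  For every `k` let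
`2^i ≤ |ζ 1| < 2^(i+1)`, `i ∈ ℤ` (a bijection `k ↔ i`).  `i < 0`: `Tht ≤ 2^(i+1)`, total `≤ 2N`.  `i ≥ 0`: `Tht_j ≤ min(1, 2^(A1 j - i)) /(1 + 2^i |s_j - θ|)`; let `a ≥ 0` be least with `|s_j - θ| ≤ 2^(a-i)` and `a' ≥ 0` least with `i - a' ≤ A1 j`:
`Tht_j ≤ 2^(1-a-a')`.  So the sum over `j` is at most `∑_{a,a'} 2^(1-a-a') M(i,a,a')`, `M = #{j : |s_j - θ| ≤ 2^(a-i), i - a' ≤ A1 j}`.  Put `q = max(a, a'+v) + 1`.  CLAIM: if `M > 0` then `i ≤ W + q`.  Indeed `Wt τ u Y s_j ≥ i - a' - v`; if this is `≤ 0` the claim holds; otherwise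
`Y ≤ nn τ u s_j (i-a'-v)` (WT (2), decreasing), and if `i > q` these chords are within `2^(-(i-q))` of `θ`: `Y ≤ n(i-q)`, so `i - q ≤ W` (WT (1)).  And `M ≤ n(i-a)` if `i ≥ a`, `M ≤ N` if `i < a`.  So `∑_i M ≤ a N + n(0) + ∑_{1 ≤ i ≤ W+1} n(i) + (q - a) Y` (for `i > W`: `n(i) < Y`), `n(0) ≤ N`,
`q - a ≤ a' + v + 1`.  Sum over `a, a'`.  Hypotheses: hPT, hCN, hWT. -/
def StWRM : Prop :=
  ∀ (φ τ : ℝ → ℝ) (A p : ℝ), Graph φ τ → 0 < A → GapP A p τ → 1 < p → ∃ C : ℝ, 0 < C ∧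
    ∀ (u v : ℕ) (Y : ℝ) (A1 : ℕ → ℕ) (ξ : Pl), 1 ≤ u → 2 ≤ Y →
      (∀ j < 2 ^ u, A1 j ≤ Wt τ u Y (sl τ u j) + v) → ξ ≠ 0 →
      ∑' k : ℤ, ∑ j ∈ Finset.range (2 ^ u), ENNReal.ofReal (Tht (sl τ u j) (A1 j) ((2 : ℝ) ^ k • ξ)) ≤
        ENNReal.ofReal (C * ((2 : ℝ) ^ u + (v + 1) * Y +
          ∑ i ∈ Finset.Icc 1 (Wt τ u Y (th ξ) + 1), (nn τ u (th ξ) i : ℝ)))

/-- WRN (about 150 lines), numbers.  `∑_{u ≥ s} 2^((1-p)u) ≤ C 2^((1-p)s) ≤ C Y^(1-p)` (`Y ≤ 2^s`); `∑_{u ≥ s} 2^(-pu) (u+2) Y ≤ C (s+1) 2^(-ps) Y ≤ C (s+1) Y^(1-p)`; for `1 ≤ i ≤ Wt`: `2^u elt τ θ i ≥ Y/2 ≥ 1` (WT (4)), so `nn ≤ 2 · 2^u elt`, and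
`∑_u 2^((1-p)u) ∑_i elt τ θ i 1[2^u elt τ θ i ≥ Y/2] ≤ C A Y^(1-p)` (SS); the term `i = Wt + 1` is `< Y` (WT (1)).  Hypotheses: hCN, hWT, hSS. -/
def StWRN : Prop :=
  ∀ (φ τ : ℝ → ℝ) (A p : ℝ), Graph φ τ → 0 < A → GapP A p τ → 1 < p → ∃ C : ℝ, 0 < C ∧
    ∀ (s : ℕ) (Y θ : ℝ), 1 ≤ s → 2 ≤ Y → Y ≤ (2 : ℝ) ^ s →
      ∑' u : ℕ, (if s ≤ u then ENNReal.ofReal ((2 : ℝ) ^ (-(p * u)) * ((2 : ℝ) ^ u + (u + 2) * Y +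
        ∑ i ∈ Finset.Icc 1 (Wt τ u Y θ + 1), (nn τ u θ i : ℝ))) else 0) ≤
        ENNReal.ofReal (C * (s + 1) * Y ^ (1 - p))

/-! ## The lossless `L²` estimates -/

/-- BUN (about 200 lines), bunches (maximal form).  MXJ for every `u, k, j`, Tonelli (`lintegral_tsum`, `lintegral_finset_sum`); for `ξ ≠ 0` (`{0}` is null) OCN with `T = Tb τ p u Y (th ξ) h` for every `u` (the constant of OCN depends only on `C₀ = 200`, see SYS), then BNS with `θ = th ξ`, and Plancherel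
(`Helper68.LM.StPL`).  `Sys` from SYS with `σ = p`, `A ↦ A^(1/p)` (GPG).  Hypotheses: hMXJ, hOCN, hBNS, hSYS, hGPG. -/
def StBUN : Prop :=
  ∀ (φ τ : ℝ → ℝ) (A p : ℝ) (c : Pl), Graph φ τ → 0 < A → GapP A p τ → 1 < p → ∀ C₅ : ℕ, ∃ C : ℝ, 0 < C ∧
    ∀ (Y : ℝ) (h : ℕ) (g : Pl → ℝ), 2 ≤ Y → 1 ≤ h → BB g →
      ∑' u : ℕ, (if 2 ≤ u ∧ Y ^ 3 ≤ (2 : ℝ) ^ u then ENNReal.ofReal ((2 : ℝ) ^ (-(p * u))) *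
        ∑' k : ℤ, ∑ j ∈ Finset.range (2 ^ u), ∫⁻ x, MD (sl τ u j) (ce c φ u j) (mm τ u j) (mp τ u j)
          (C₅ * (Wt τ u Y (sl τ u j) + h)) k g x ^ 2 else 0) ≤
        ENNReal.ofReal (C * h * Y ^ (-(p ^ 2 / (p + 1)))) * ∫⁻ x, ‖g x‖ₑ ^ 2

/-- MIQ (about 180 lines), the master inequality.  Plancherel for every `Zc c φ τ u 0 k j g` (`BB`, Fourier transform `Zh (2^k ξ) ft g ξ`, YB), `‖Zh‖² ≤ C Pso` (KD, `l = 1`, `Pso ≤ 1`), MIM, and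
`∑_u 2^(-pu) (u + 1 + #{i ≥ 1 : 2^u elt τ θ i ≥ 1}) ≤ C` (SS with `y = 1`), `θ = th ξ`.  Hypotheses: hYB, hKD, hMIM, hSS, hCN, hSYS, hGPG. -/
def StMIQ : Prop :=
  ∀ (φ τ : ℝ → ℝ) (A p : ℝ) (c : Pl), Graph φ τ → 0 < A → GapP A p τ → 1 < p → ∃ C : ℝ, 0 < C ∧
    ∀ g : Pl → ℝ, BB g →
      ∑' u : ℕ, (if 2 ≤ u then ENNReal.ofReal ((2 : ℝ) ^ (-(p * u))) *
        ∑' k : ℤ, ∑ j ∈ Finset.range (2 ^ u), ∫⁻ x, ‖Zc c φ τ u 0 k j g x‖ₑ ^ 2 else 0) ≤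
        ENNReal.ofReal C * ∫⁻ x, ‖g x‖ₑ ^ 2

/-- ALL (about 120 lines).  L2B (project RG), `μ_j = Zh (2^(W j))`, `‖μ_j‖² ≤ C Pso_j` (KD, `Pso ≤ 1`); OCT for `f k = ∑_j Pso_j (2^k ξ)`, `r = ‖ξ‖`, `p = -u`, `q = K + u`: bounded by PSM; for `2^k r ≤ 2^(-u)` at most `2^u 2^k r`; for `2^k r ≥ 2^(K+u)` at most
`2^u 2^K/(2^k r)`.  Hypotheses: hYB, hKD, hPSM, hOCT, hL2B. -/
def StALL : Prop :=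
  ∀ C₀ : ℝ, 0 < C₀ → ∃ C : ℝ, 0 < C ∧ ∀ (u : ℕ) (s : ℕ → ℝ) (c : ℕ → Pl) (m m' : ℕ → ℕ) (R : ℝ) (K : ℕ)
    (A σ : ℝ), Sys u s c m m' C₀ R K A σ → ∀ (W : ℕ → ℕ) (g : Pl → ℝ), BB g →
      ∑' k : ℤ, ∑ j ∈ Finset.range (2 ^ u), ∫⁻ x, ‖Z (s j) (c j) (m j) (m' j) ((2 : ℝ) ^ (W j)) k g x‖ₑ ^ 2 ≤
        ENNReal.ofReal (C * (K + u + 1)) * ∫⁻ x, ‖g x‖ₑ ^ 2

/-- DFZ (about 120 lines).  MXJ, Tonelli, OCN with `V j = w`; the number of near `j` is at most `1 + 2^u A T^(-1/σ)` (`sep`), and Plancherel (`Helper68.LM.StPL`).  Hypotheses: hMXJ, hOCN. -/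
def StDFZ : Prop :=
  ∀ C₀ : ℝ, 0 < C₀ → ∃ C : ℝ, 0 < C ∧ ∀ (u : ℕ) (s : ℕ → ℝ) (c : ℕ → Pl) (m m' : ℕ → ℕ) (R : ℝ) (K : ℕ)
    (A σ : ℝ), Sys u s c m m' C₀ R K A σ → 0 ≤ A → ∀ (w T : ℕ) (g : Pl → ℝ), BB g → 1 ≤ T →
      ∑' k : ℤ, ∑ j ∈ Finset.range (2 ^ u), ∫⁻ x, MD (s j) (c j) (m j) (m' j) w k g x ^ 2 ≤
        ENNReal.ofReal (C * (T + u + 1 + (w + 1) * (1 + (2 : ℝ) ^ u * (A * (T : ℝ) ^ (-(1 / σ)))))) *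
          ∫⁻ x, ‖g x‖ₑ ^ 2

/-- WRF (about 180 lines), cells.  WRJ for every `u, k, j`, Tonelli; for `ξ ≠ 0` WRM with `v = u + 1`, `A1 j = Wt τ u Y (sl τ u j) + u + 1`, then WRN with `θ = th ξ`; Plancherel.  Hypotheses: hWRJ, hWRM, hWRN. -/
def StWRF : Prop :=
  ∀ (φ τ : ℝ → ℝ) (A p : ℝ), Graph φ τ → 0 < A → GapP A p τ → 1 < p → ∃ C : ℝ, 0 < C ∧
    ∀ (s : ℕ) (Y la mu : ℝ) (g : Pl → ℝ), 1 ≤ s → 2 ≤ Y → Y ≤ (2 : ℝ) ^ s → 1 ≤ la → 1 ≤ mu → BB g →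
      ∑' u : ℕ, (if s ≤ u then ENNReal.ofReal ((2 : ℝ) ^ (-(p * u))) *
        ∑' k : ℤ, ∑ j ∈ Finset.range (2 ^ u), ∫⁻ x, MC (sl τ u j) la mu
          (Wt τ u Y (sl τ u j) + u + 1) k g x ^ 2 else 0) ≤
        ENNReal.ofReal (C * mu * (s + 1) * Y ^ (1 - p)) * ∫⁻ x, ‖g x‖ₑ ^ 2

end Pool.Agent.Helper20.EQ
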