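import Pool.Agent.Helper20.EQ.St1

/-!
# Project EQ (MP_cb927e_an): interface statements, part 2 (persistent pairs; cells)
-/

set_option autoImplicit false

open MeasureTheory Set Filter Topology
open scoped ENNReal RealInnerProductSpace

namespace Pool.Agent.Helper20.EQ

open Pool.Agent.Helper68.LM (Pl BB Bd Av HL ft fm DQ)
open Pool.Agent.Helper20.RG
open Pool.Agent.Helper68.EP (elt GapP)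

/-! ## Persistent pairs -/

/-- WAD (about 120 lines).  As WA of project RG with `1/2` replaced by `δ` (module Helper3.RG.M_WA): `V 0 ∩ .. ∩ V (i-1)` is a union of dyadic squares of side `2^(a-iγ)`, countably many disjoint ones, so
`|V 0 ∩ .. ∩ V i| ≤ δ |V 0 ∩ .. ∩ V (i-1)|`.  Hypotheses: none. -/
def StWAD : Prop :=
  ∀ (n : ℕ) (a : ℤ) (γ : ℕ) (V : ℕ → Set Pl) (δ : ℝ), 1 ≤ n → 0 ≤ δ →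
    (∀ i < n, ∀ x ∈ V i, DQ (a - ((i : ℤ) + 1) * γ) x ⊆ V i) →
    (∀ i < n, ∀ x : Pl, volume (V i ∩ DQ (a - (i : ℤ) * γ) x) ≤
      ENNReal.ofReal δ * volume (DQ (a - (i : ℤ) * γ) x)) →
    volume {x | ∀ i < n, x ∈ V i} ≤ ENNReal.ofReal (δ ^ (n - 1)) * volume (V 0)

/-- WCD (about 100 lines).  WB of project RG with one set (`N = 1`), `a ↦ a - iγ`, `b = a - (i+1)γ`, `D = D₁`: `V i = ⋃ DQ b x` over the `x ∈ G` with `vol(S i ∩ Sq x (r i)) > D₁ (r i)²` has density at most `16 D₀/D₁` in the dyadic squares of side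
`2^(a-iγ)`, and `|V 0| ≤ (16/D₁) vol(S 0)`.  WAD.  Hypotheses: hWAD, hWB. -/
def StWCD : Prop :=
  ∀ (n : ℕ) (a : ℤ) (γ : ℕ) (r : ℕ → ℝ) (S : ℕ → Set Pl) (G : Set Pl) (D₀ D₁ : ℝ),
    1 ≤ n → 0 ≤ D₀ → 0 < D₁ → (∀ i < n, MeasurableSet (S i)) →
    (∀ i < n, (2 : ℝ) ^ (a - ((i : ℤ) + 1) * γ) ≤ r i ∧ r i ≤ (2 : ℝ) ^ (a - (i : ℤ) * γ)) →
    (∀ i < n, ∀ x ∈ G, volume (S i ∩ Sq x (4 * (2 : ℝ) ^ (a - (i : ℤ) * γ))) ≤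
      ENNReal.ofReal (D₀ * (4 : ℝ) ^ (a - (i : ℤ) * γ))) →
    volume {x | x ∈ G ∧ ∀ i < n, ¬ volume (S i ∩ Sq x (r i)) ≤ ENNReal.ofReal (D₁ * r i ^ 2)} ≤
      ENNReal.ofReal ((16 * D₀ / D₁) ^ (n - 1) * (16 / D₁)) * volume (S 0)

/-- PPW (about 300 lines), product formula in a window.  Cover the plane by the squares `q = Sq z (L/2)`, `z = (n₁ L, n₂ L)`; fix `z`.  `F_a = pr s '' (Ea ∩ interior (Sq z (5L)))` is open, and `y ∈ Sq z (5L)`, `pr s y ∈ F_a` imply `y ∈ Ra` (`y = y₀ + lam E s`, `|lam| ≤ 10L`); the same for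
`F_b`, `s'`, `Rb`.  Let `ρ = r/4`, `I_n = [nρ, (n+1)ρ)`, and let `n ∈ 𝓘` if some `x ∈ R ∩ q` has `pr s' x ∈ I_n`; then `F_b ∩ I_n ⊆ [pr s' x - ρ, pr s' x + ρ]`, RID with `h = 3r/4`: `(3r/2) vol(F_b ∩ I_n) ≤ vol(Rb ∩ Sq x r) ≤ D₁ r²` (`Sq x r ⊆ Sq z (5L)`), so
`vol(F_b ∩ I_n) ≤ D₁ r`.  For `y ∈ R ∩ q`: `σ = pr s y ∈ F_a`, `|σ - pr s z| ≤ L`, and given `σ`, `ω = pr s' y` lies in `⋃_{n ∈ 𝓘} (F_b ∩ I_n)` and in an interval of length `|s-s'| L` depending on `σ` (`σ - ω = (s' - s) y 0`, `|y 0 - z 0| ≤ L/2`).  Fubini in the coordinates `(σ, ω)` (as in PAR of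
project RG): `vol(R ∩ q) ≤ vol(F_a ∩ [pr s z - L, pr s z + L]) · (1/|s-s'|) (|s-s'| L/ρ + 2) D₁ r ≤ 6 D₁ L vol(F_a ∩ ..)` (`|s-s'| L ≥ 100 r`), and RID with `r ↦ 5L`, `h = 4L`: `8 L vol(F_a ∩ ..) ≤ vol(Ra ∩ Sq z (5L))`.
Every point is in at most `121` of the squares `Sq z (5L)`.  Compare the modules RDG, RDS.  Hypotheses: hPT, hRID, hPAR. -/
def StPPW : Prop :=
  ∃ C : ℝ, 0 < C ∧ ∀ (s s' α r L D₁ : ℝ) (Ea Eb Ra Rb R : Set Pl), |s| ≤ 1 → |s'| ≤ 1 → 0 < α →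
    α ≤ |s - s'| → 0 < r → 100 * r ≤ α * L → 0 ≤ D₁ → IsOpen Ea → IsOpen Eb → MeasurableSet Ra →
    MeasurableSet Rb → (∀ y ∈ Ea, ∀ lam : ℝ, |lam| ≤ 10 * L → y + lam • E s ∈ Ra) →
    (∀ y ∈ Eb, ∀ lam : ℝ, |lam| ≤ 10 * L → y + lam • E s' ∈ Rb) → R ⊆ Ea ∩ Eb →
    (∀ x ∈ R, volume (Rb ∩ Sq x r) ≤ ENNReal.ofReal (D₁ * r ^ 2)) →
    volume R ≤ ENNReal.ofReal (C * D₁) * volume Ra

/-- PPO (about 250 lines), one pair.  `A = Aa s s'`, `2^(-A) ≤ |s - s'|` (`A ≥ -log₂ |s-s'|`), `γ = ga s s' h = 16(A+h+10)`, `a = k + nγ`, and for `i < n` (so `a - iγ = k + (n-i)γ`): `S i = {η/4 < |F' ((n-i)γ)|}`, `r i = 2^(a-iγ-γ/2)`.  Chebyshev: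
`vol(S i ∩ Sq x (4·2^(a-iγ))) ≤ (16/η²) D₀ 4^(a-iγ)`.  WCD with `D₀ ↦ 16 D₀/η²`: the second term.  For the other points there is `i` with `vol(S i ∩ Sq x (r i)) ≤ D₁ (r i)²`; PPW with `w = (n-i)γ`, `Ea = {3η/8 < |F w|}`, `Ra = {η/4 < |F w|}`, `Eb = {3η/8 < |F' w|}`, `Rb = S i`, `α = 2^(-A)`,
`r = r i`, `L = 2^(k+w-γ/4)`: `|lam| ≤ 10 L` changes `F w` by at most `20·2^(-γ/4) = 20·2^(-4(A+h+10)) ≤ η/8`; `100 r ≤ α L` as `2^(γ/4) ≥ 100·2^A`.  Hypotheses: hWCD, hPPW. -/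
def StPPO : Prop :=
  ∃ C : ℝ, 0 < C ∧ ∀ (n h : ℕ) (k : ℤ) (s s' η D₀ D₁ : ℝ) (F F' : ℕ → Pl → ℝ) (G : Set Pl),
    1 ≤ n → |s| ≤ 1 → |s'| ≤ 1 → s ≠ s' → (2 : ℝ) ^ (-(h : ℤ)) ≤ η → η ≤ 1 → 0 ≤ D₀ → 0 < D₁ →
    (∀ w, Continuous (F w) ∧ Continuous (F' w)) →
    (∀ (w : ℕ) (x : Pl) (lam : ℝ), |F w (x + lam • E s) - F w x| ≤ 2 * |lam| / (2 : ℝ) ^ (k + (w : ℤ))) →
    (∀ (w : ℕ) (x : Pl) (lam : ℝ), |F' w (x + lam • E s') - F' w x| ≤ 2 * |lam| / (2 : ℝ) ^ (k + (w : ℤ))) →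
    (∀ w : ℕ, ∀ x ∈ G, ∫⁻ y in Sq x (4 * (2 : ℝ) ^ (k + (w : ℤ))), ‖F' w y‖ₑ ^ 2 ≤
      ENNReal.ofReal (D₀ * (4 : ℝ) ^ (k + (w : ℤ)))) →
    volume {x | x ∈ G ∧ ∀ i ∈ Finset.Icc 1 n, η / 2 ≤ |F (i * ga s s' h) x| ∧
      η / 2 ≤ |F' (i * ga s s' h) x|} ≤
      ENNReal.ofReal (C * D₁) * (∑ i ∈ Finset.Icc 1 n, volume {x | η / 4 < |F (i * ga s s' h) x|}) +
      ENNReal.ofReal ((256 * D₀ / (η ^ 2 * D₁)) ^ (n - 1) * (16 / D₁)) *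
        volume {x | η / 4 < |F' (n * ga s s' h) x|}

/-- PPF (about 300 lines), all pairs of two classes.  For every `k`, `a`, `b`: PPO with `F w = Zc c φ τ u w k a g`, `F' w = Zc c φ τ u' w k b g'` (FAM and SYS with `σ = p`, `A ↦ A^(1/p)`: `cont`, `inv`, and `lb` gives
`∫_{Sq x (4·2^(k+w))} |F' w|² ≤ Cf ∫_{Sq x (Cf 2^(k+w))} g'² ≤ Cf D' 4^(k+w)`, `g'² ≤ g'`, Loc at `k + w`; enlarge `C ≥ Cf`).  Sum of the first term over `a` and `k` for fixed `b`, `i`: Chebyshev `vol{η/4 < |..|} ≤ (16/η²) ∫ |..|²` and ALL with `W a = i ga (sl τ u a) (sl τ u' b) h`: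
`(16/η²) C (K + u + 1) ∫ g²`, `K = KA (A^(1/p)) p u`, `K + u + 1 ≤ C 2^(pu)`; then `2^(u')` values of `b` and `n` of `i`.  Second term: for fixed `a` sum over `b`, `k` by ALL for the class `u'`, `W b = n ga ..`; `2^u` values of `a`.  Hypotheses: hPPO, hALL, hFAM, hSYS, hGPG. -/
def StPPF : Prop :=
  ∀ (φ τ : ℝ → ℝ) (A p : ℝ) (c : Pl), Graph φ τ → 0 < A → GapP A p τ → 1 < p → ∃ C : ℝ, 1 ≤ C ∧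
    ∀ (u u' h n : ℕ) (η D' D₁ : ℝ) (g g' : Pl → ℝ) (G : Set Pl), 2 ≤ u → u ≤ u' → 1 ≤ n →
      (2 : ℝ) ^ (-(h : ℤ)) ≤ η → η ≤ 1 → 0 ≤ D' → 0 < D₁ → BB g → BB g' →
      (∀ x, 0 ≤ g x ∧ g x ≤ 1) → (∀ x, 0 ≤ g' x ∧ g' x ≤ 1) → (∀ x ∈ G, Loc C D' g' x) →
      ∑' k : ℤ, volume {x | x ∈ G ∧ ∃ a < 2 ^ u, ∃ b < 2 ^ u', sl τ u a ≠ sl τ u' b ∧
        ∀ i ∈ Finset.Icc 1 n,
          η / 2 ≤ |Zc c φ τ u (i * ga (sl τ u a) (sl τ u' b) h) k a g x| ∧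
          η / 2 ≤ |Zc c φ τ u' (i * ga (sl τ u a) (sl τ u' b) h) k b g' x|} ≤
        ENNReal.ofReal (C * n * (2 : ℝ) ^ u' * D₁ / η ^ 2 * (2 : ℝ) ^ (p * u)) * (∫⁻ x, ‖g x‖ₑ ^ 2) +
        ENNReal.ofReal (C * (2 : ℝ) ^ u * (C * D' / (η ^ 2 * D₁)) ^ (n - 1) / D₁ / η ^ 2 *
          (2 : ℝ) ^ (p * u')) * ∫⁻ x, ‖g' x‖ₑ ^ 2

/-- PPG (about 120 lines), numbers.  PPF with `n = 41`, `h = ρ + 1`, `η = 2^(-ρ-1)`, `D' = 4^(t-u'-ρ)`, `D₁ = 2^(-3u'/2)`.  First: `C 2^(-u'/2) 4^(ρ+1) 2^(pu) ≤ C 2^(-u'/4) 2^(pu)` (`u' ≥ 8(ρ+1)`).  Second: `C D'/(η² D₁) = C 4^(t+1) 2^(-u'/2) ≤ 2^(-u'/4)` for `u' ≥ C₂ (t+1)`; its 40th power is `2^(-10u')`, and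
`2^u 2^(3u'/2) 4^(ρ+1) 2^(pu') ≤ 2^(u' + 3u'/2 + u' + 3u')` (`p < 3`).  Hypotheses: hPPF. -/
def StPPG : Prop :=
  ∀ (φ τ : ℝ → ℝ) (A p : ℝ) (c : Pl), Graph φ τ → 0 < A → GapP A p τ → 1 < p → p < 3 →
    ∃ (C : ℝ) (C₂ : ℕ), 1 ≤ C ∧ 1 ≤ C₂ ∧
    ∀ (u u' t ρ : ℕ) (g g' : Pl → ℝ) (G : Set Pl), 2 ≤ u → u ≤ u' → C₂ * (t + ρ + 1) ≤ u' → BB g → BB g' →
      (∀ x, 0 ≤ g x ∧ g x ≤ 1) → (∀ x, 0 ≤ g' x ∧ g' x ≤ 1) →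
      (∀ x ∈ G, Loc C ((4 : ℝ) ^ ((t : ℤ) - u' - ρ)) g' x) →
      ∑' k : ℤ, volume {x | x ∈ G ∧ ∃ a < 2 ^ u, ∃ b < 2 ^ u', sl τ u a ≠ sl τ u' b ∧
        ∀ i ∈ Finset.Icc 1 41,
          (2 : ℝ) ^ (-((ρ : ℤ) + 1)) / 2 ≤ |Zc c φ τ u (i * ga (sl τ u a) (sl τ u' b) (ρ + 1)) k a g x| ∧
          (2 : ℝ) ^ (-((ρ : ℤ) + 1)) / 2 ≤ |Zc c φ τ u' (i * ga (sl τ u a) (sl τ u' b) (ρ + 1)) k b g' x|} ≤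
        ENNReal.ofReal (C * (2 : ℝ) ^ (-((u' : ℝ) / 4)) * (2 : ℝ) ^ (p * u)) * (∫⁻ x, ‖g x‖ₑ ^ 2) +
        ENNReal.ofReal (C * (2 : ℝ) ^ (-(u' : ℝ))) * ∫⁻ x, ‖g' x‖ₑ ^ 2

/-! ## Cells -/

/-- CEF (about 120 lines), the cell formula.  `CA s la mu k A g z = ∫_{|v| ≤ 1/2} ∫_{|t| ≤ 1/2} g (z - 2^(k-A) mu v e₂ - 2^k la t E s) dt dv` and `(t, v) ↦` this point is an affine bijection onto `Cel` with Jacobian `la 2^k · mu 2^(k-A)` (Fubini, PT: first coordinate `z 0 - 2^k la t`, and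
`pr s` of the difference is `-2^(k-A) mu v`).  Hypotheses: hPT, hSGE. -/
def StCEF : Prop :=
  ∀ (s la mu : ℝ) (k : ℤ) (A : ℕ) (z : Pl), |s| ≤ 1 → 0 < la → 0 < mu →
    MeasurableSet (Cel s la mu k A z) ∧
    volume (Cel s la mu k A z) = ENNReal.ofReal (la * mu * (2 : ℝ) ^ k * (2 : ℝ) ^ (k - (A : ℤ))) ∧
    ∀ g : Pl → ℝ, BB g → CA s la mu k A g z =
      1 / (la * mu * (2 : ℝ) ^ k * (2 : ℝ) ^ (k - (A : ℤ))) * ∫ y in Cel s la mu k A z, g y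

/-- CEC (about 80 lines), comparison of cells.  For `y ∈ Cel s la mu k A z`: `|y 0 - z' 0| ≤ (la/2 + 1) 2^k ≤ la' 2^k/2` and
`|pr s' (y - z')| ≤ |pr s (y - z)| + |pr s (z - z')| + |s - s'||y 0 - z' 0| ≤ (mu/2 + 1 + la/2 + 1) 2^(k-A) ≤ mu' 2^(k-A)/2`: `Cel s la mu k A z ⊆ Cel s' la' mu' k A z'`; CEF.  Hypotheses: hCEF. -/
def StCEC : Prop :=
  ∀ (s s' la mu la' mu' : ℝ) (k : ℤ) (A : ℕ) (g : Pl → ℝ) (z z' : Pl), |s| ≤ 1 → |s'| ≤ 1 → 0 < la →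
    0 < mu → BB g → (∀ x, 0 ≤ g x) → |s - s'| ≤ (2 : ℝ) ^ (-(A : ℤ)) → |(z - z') 0| ≤ (2 : ℝ) ^ k →
    |pr s (z - z')| ≤ (2 : ℝ) ^ (k - (A : ℤ)) → la + 2 ≤ la' → la + mu + 4 ≤ mu' →
    CA s la mu k A g z ≤ la' * mu' / (la * mu) * CA s' la' mu' k A g z'

/-- CEY (about 150 lines).  `Y s c m 1 k g x` is the integral of `g` against a probability density supported in the set of the points `x - 2^k c - 2^k t E s - 2·2^(k-m) w`, `|t| ≤ 1/2`, `w ∈ Sq 0 (1/2)`, which is contained in `Cel s 4 6 k m (x - 2^k c)` (first coordinate `≤ 2^k/2 + 2^(k-m)`,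
`pr s`: `≤ 2·2^(k-m)`); the density is at most `(1/2^k)(2·2^(k-m))/(4·4^(k-m)) = 1/(2·2^k 2^(k-m))` (the `t` for which the point lies in a given box of side `2·2^(k-m)` form an interval of length `≤ 2·2^(k-m)/2^k`), and CEF.  Second clause: `Y` is `Av (sg s) (2^k)` of a function with values in `[0,1]`, translated; as in YC of
project RG (shift of the interval of integration).  Third: continuity, YC.  Hypotheses: hPT, hCEF, hYC, hYB, hMEA. -/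
def StCEY : Prop :=
  ∀ (s : ℝ) (c : Pl) (m : ℕ) (k : ℤ) (g : Pl → ℝ), |s| ≤ 1 → BB g → (∀ x, 0 ≤ g x) →
    (∀ x : Pl, Y s c m ((2 : ℝ) ^ 0) k g x ≤ 24 * CA s 4 6 k m g (x - (2 : ℝ) ^ k • c)) ∧
    ((∀ x, g x ≤ 1) → ∀ (x : Pl) (lam : ℝ),
      |Y s c m ((2 : ℝ) ^ 0) k g (x + lam • E s) - Y s c m ((2 : ℝ) ^ 0) k g x| ≤ 2 * |lam| / (2 : ℝ) ^ k) ∧
    Continuous (Y s c m ((2 : ℝ) ^ 0) k g)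

/-- PRD (about 300 lines), product formula in parallelograms.  `α = |s - s'|`.  `P(n,n') = {pr s y ∈ [nδ, (n+1)δ), pr s' y ∈ [n'δ, (n'+1)δ)}`; two points of it have first coordinates at distance `< 2δ/α` (`(s' - s) y 0 = pr s y - pr s' y`).  Let `x ∈ R ∩ P(n,n')`.  `T_a = [nδ,(n+1)δ) ∩ pr s '' (Ea ∩ {|y 0 - x 0| < 2δ/α})`,
`T_b = [n'δ,(n'+1)δ) ∩ pr s' '' (Eb ∩ {|y 0 - x 0| < 2δ/α})` (images of open sets are open), `R ∩ P(n,n') ⊆ {pr s ∈ T_a, pr s' ∈ T_b}`.  Every `y'` with `pr s y' ∈ T_a`, `|y' 0 - x 0| ≤ 4δ/α` is in `Ra` (`|lam| ≤ 6δ/α`), and `|pr s (y' - x)| ≤ δ`: `(8δ/α)|T_a| ≤ D δ²/α`, so `|T_a| ≤ Dδ/8`.  Every `y'` with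
`pr s' y' ∈ T_b`, `|y' 0 - x 0| ≤ δ/α` is in `Rb`, and `|pr s (y' - x)| ≤ 2δ`, so `(2δ/α)|T_b| ≤ vol(Rb ∩ ⋃_{|i| ≤ 2} P(n+i,n'))`.  PAR: `vol(R ∩ P(n,n')) ≤ |T_a||T_b|/α ≤ (D/16) vol(Rb ∩ ..)`.  Sum: overlap `5`.  Hypotheses: hPT, hPAR. -/
def StPRD : Prop :=
  ∀ (s s' δ D : ℝ) (Ea Eb Ra Rb R : Set Pl), |s| ≤ 1 → |s'| ≤ 1 → s ≠ s' → 0 < δ → 0 ≤ D → IsOpen Ea →
    IsOpen Eb → MeasurableSet Ra → MeasurableSet Rb →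
    (∀ y ∈ Ea, ∀ lam : ℝ, |lam| ≤ 8 * δ / |s - s'| → y + lam • E s ∈ Ra) →
    (∀ y ∈ Eb, ∀ lam : ℝ, |lam| ≤ 8 * δ / |s - s'| → y + lam • E s' ∈ Rb) → R ⊆ Ea ∩ Eb →
    (∀ x ∈ R, volume (Ra ∩ {y | |y 0 - x 0| ≤ 4 * δ / |s - s'| ∧ |pr s (y - x)| ≤ 2 * δ}) ≤
      ENNReal.ofReal (D * δ ^ 2 / |s - s'|)) →
    volume R ≤ ENNReal.ofReal D * volume Rb

/-- GTH (about 250 lines), case G3.  `z = x - 2^k c`.  `|Z| ≥ η` and `Y^m, Y^(m') ≥ 0` give `Y^(m₀) g x ≥ η` for some `m₀ ∈ {m, m'}`; if `m₀ ≤ A` then `η ≤ 24 CA s 4 6 k m₀ g z < 24 κ` (CEY), a contradiction (`100 κ ≤ η`); so `m₀ ≥ A + 1`.  For each of the two `m₀`: PRD with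
`δ = η 2^(k-A)/256`, `Ea = {7η/8 < Y^(m₀) g}`, `Ra = {η/2 < Y^(m₀) g}`, `Eb = {7η/8 < |Z'|}`, `Rb = {η/2 ≤ |Z'|}`: `8δ/|s-s'| ≤ 16 δ 2^A = η 2^k/16`, so both functions change by at most `η/8` (CEY, YC).  Density: by Fubini the integral of `Y^(m₀) g` over
`{|y 0 - x 0| ≤ 4δ/|s-s'|, |pr s (y-x)| ≤ 2δ}` is at most `∫_{Cel s 4 6 k A z} g` (first coordinates `≤ η 2^k/32 + 2^k/2 + 2^(k-m₀) ≤ 2·2^k`; `pr s`: `2δ + 2·2^(k-m₀) ≤ 3·2^(k-A)` as `m₀ ≥ A+1`) `= 24·2^k 2^(k-A) CA ≤ 24 κ 2^(2k-A)`, so the measure of `Ra ∩ ..` is at most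
`(48 κ/η) 2^(2k-A) ≤ D δ²/|s-s'|` with `D = C κ/η³` (`|s-s'| ≤ 2·2^(-A)`).  Hypotheses: hPT, hPRD, hCEY, hCEF, hYC, hYB. -/
def StGTH : Prop :=
  ∃ C : ℝ, 1 ≤ C ∧ ∀ (s s' η κ : ℝ) (c c' : Pl) (m m' n n' A : ℕ) (k : ℤ) (g g' : Pl → ℝ), |s| ≤ 1 →
    |s'| ≤ 1 → m' ≤ m → n' ≤ n → 0 < η → η ≤ 1 → 0 < κ → 100 * κ ≤ η → BB g → BB g' →
    (∀ x, 0 ≤ g x ∧ g x ≤ 1) → (∀ x, 0 ≤ g' x ∧ g' x ≤ 1) →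
    (2 : ℝ) ^ (-(A : ℤ)) / 2 ≤ |s - s'| → |s - s'| ≤ 2 * (2 : ℝ) ^ (-(A : ℤ)) →
    volume {x | η ≤ |Z s c m m' ((2 : ℝ) ^ 0) k g x| ∧ η ≤ |Z s' c' n n' ((2 : ℝ) ^ 0) k g' x| ∧
      ∀ A' ≤ A, CA s 4 6 k A' g (x - (2 : ℝ) ^ k • c) < κ} ≤
      ENNReal.ofReal (C * κ / η ^ 3) * volume {x | η / 2 ≤ |Z s' c' n n' ((2 : ℝ) ^ 0) k g' x|}

/-- LBC (about 200 lines), local Bessel inequality in a cell.  For `y ∈ Cel s 2 2 k A x` and `b` in the sum `Z_b g' y` only depends on `g'` at the points `y - 2^k c' b - 2^k t E (s' b) - 2·2^(k-m₀) w`, `m₀ ∈ {m b, m' b}`, `m₀ ≥ A`, which lie in `Cel s 8 12 k A (x - 2^k ca)` (first coordinate `≤ (1+1+1/2+1) 2^k`,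
`pr s`: `≤ (1 + 1 + 1/2 + 2) 2^(k-A)`).  So replace `g'` by `g' 1_{Cel}` (`BB`), then L2B of project RG (one scale, second clause) with `μ_b ξ = Zh (s' b) .. (2^k ξ)` (`0` for the `b` not in the sum), `∑ ‖μ_b‖² ≤ C ∑ Pso ≤ C` (KD, PSM).  Hypotheses: hPT, hYB, hKD, hPSM, hL2B, hCEF. -/
def StLBC : Prop :=
  ∀ C₀ : ℝ, 0 < C₀ → ∃ C : ℝ, 0 < C ∧ ∀ (u : ℕ) (s' : ℕ → ℝ) (c' : ℕ → Pl) (m m' : ℕ → ℕ) (R : ℝ) (K : ℕ)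
    (A₁ σ : ℝ), Sys u s' c' m m' C₀ R K A₁ σ → ∀ (s : ℝ) (ca x : Pl) (k : ℤ) (A : ℕ) (g' : Pl → ℝ),
      |s| ≤ 1 → BB g' →
      ∑ b ∈ (Finset.range (2 ^ u)).filter (fun b => |s' b - s| ≤ (2 : ℝ) ^ (-(A : ℤ)) ∧ A ≤ m' b ∧
          |(ca - c' b) 0| ≤ 1 ∧ |pr s (ca - c' b)| ≤ (2 : ℝ) ^ (-(A : ℤ))),
        ∫⁻ y in Cel s 2 2 k A x, ‖Z (s' b) (c' b) (m b) (m' b) ((2 : ℝ) ^ 0) k g' y‖ₑ ^ 2 ≤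
      ENNReal.ofReal C * ∫⁻ y in Cel s 8 12 k A (x - (2 : ℝ) ^ k • ca), ‖g' y‖ₑ ^ 2

/-- GON (about 400 lines), case G1, one chord `(s, c, m)` and the class `u` of the chords `b`.  Let `X` be the set on the left; for `x ∈ X` let `A(x)` be one of the numbers `A`.  Dyadic cells `Q_A(x) = {y : ⌊y 0/2^k⌋ = ⌊x 0/2^k⌋, ⌊pr s y/2^(k-A)⌋ = ⌊pr s x/2^(k-A)⌋}` are nested, `Q_A(x) ⊆ Cel s 2 2 k A x`, of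
measure `2^k 2^(k-A)`.  Let `Q_i = Q_{A_i}(x_i)`, `A_i = A(x_i)`, be the maximal ones among the `Q_{A(x)}(x)`, `x ∈ X`: countable, disjoint, they cover `X`, and for `x ∈ X ∩ Q_i`: `A(x) ≥ A_i`.  (1) every `y ∈ Q_i` lies in the set on the right: `x_i ∈ G` is near, and CEC with `s = s'`: `κ ≤ CA s 4 6 k A_i g (x_i - 2^k c) ≤ 4 CA s 6 16 k A_i g (y - 2^k c)`.
(2) `∫_{Cel s 8 12 k A_i (x_i - 2^k c)} g' = 96·2^k 2^(k-A_i) CA s 8 12 .. ≤ C κ₁ |Q_i|`: let `b_i` belong to `x_i`; CEC (`|s - s' b_i| ≤ 2^(-A_i)`, near), `A_i ≤ A1 b_i`: `CA s 8 12 k A_i g' (x_i - 2^k c) ≤ C CA (s' b_i) 12 30 k A_i g' (x_i - 2^k c' b_i) < C κ₁`.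
(3) let `x ∈ X ∩ Q_i` with its `b`: `|s' b - s| ≤ 2^(-A(x)) ≤ 2^(-A_i)`, near at `A_i`.  If `A_i ≤ m' b`: `b` is in the sum of LBC (`ca = c`), so these `x` have measure at most `η^(-2) C ∫_{Cel s 8 12 ..} g'² ≤ C η^(-2) κ₁ |Q_i|`.  (4) if `m' b < A_i ≤ A(x) ≤ A1 b`: `Y^(m' b) g' x ≤ 24 CA (s' b) 4 6 .. ≤ 360 CA (s' b) 12 30 k (m' b) g' (x - 2^k c' b)
< 360 κ₁ < η/2` (CEY, CEC), so `Y^(m b) g' x ≥ η`, and for the same reason `m b ≥ A_i`.  There are at most `2 C₀` such `b` (`cnt` with `w = 2^u 2^(1-A_i)`, `T = 2^(-A_i)`, `τ = s`), and for each `∫_{Q_i} Y^(m b) g' ≤ ∫_{Cel s 8 12 k A_i (x_i - 2^k c)} g'` (Fubini, locality as in LBC), so measure `≤ C κ₁ |Q_i|/η`.  Sum over `i`.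
Hypotheses: hPT, hLBC, hCEF, hCEC, hCEY, hYB. -/
def StGON : Prop :=
  ∀ C₀ : ℝ, 0 < C₀ → ∃ C : ℝ, 1 ≤ C ∧ ∀ (u : ℕ) (s' : ℕ → ℝ) (c' : ℕ → Pl) (n n' : ℕ → ℕ) (R : ℝ) (K : ℕ)
    (A₁ σ : ℝ), Sys u s' c' n n' C₀ R K A₁ σ → ∀ (s : ℝ) (c : Pl) (m : ℕ) (k : ℤ) (g g' : Pl → ℝ)
    (η κ κ₁ : ℝ) (A1 : ℕ → ℕ) (G : Set Pl), |s| ≤ 1 → BB g → BB g' → (∀ x, 0 ≤ g x ∧ g x ≤ 1) →
      (∀ x, 0 ≤ g' x ∧ g' x ≤ 1) → 0 < η → η ≤ 1 → 0 < κ → 0 < κ₁ → C * κ₁ ≤ η →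
      (∀ b < 2 ^ u, ∀ A ≤ m, |s' b - s| ≤ (2 : ℝ) ^ (-(A : ℤ)) →
        |(c - c' b) 0| ≤ 1 ∧ |pr s (c - c' b)| ≤ (2 : ℝ) ^ (-(A : ℤ)) ∧ A ≤ A1 b) →
      volume {x | x ∈ G ∧ ∃ A ≤ m, κ ≤ CA s 4 6 k A g (x - (2 : ℝ) ^ k • c) ∧
        ∃ b < 2 ^ u, |s' b - s| ≤ (2 : ℝ) ^ (-(A : ℤ)) ∧
          η ≤ |Z (s' b) (c' b) (n b) (n' b) ((2 : ℝ) ^ 0) k g' x| ∧
          ∀ A' ≤ A1 b, CA (s' b) 12 30 k A' g' (x - (2 : ℝ) ^ k • c' b) < κ₁} ≤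
      ENNReal.ofReal (C * κ₁ / η ^ 2) *
        volume {x | (∃ x' ∈ G, x' ∈ Sq x (2 * (2 : ℝ) ^ k)) ∧
          ∃ A ≤ m, κ / 4 ≤ CA s 6 16 k A g (x - (2 : ℝ) ^ k • c)}

/-- LCZ (about 80 lines).  `Cel s la mu k 0 (x' - 2^k c) ⊆ Sq x (C 2^k)` (`la ≤ 12`, `mu ≤ 30`), so `CA ≤ (1/(la mu 4^k)) ∫_{Sq x (C 2^k)} |g| ≤ D` (CEF, Loc at `k`; `Loc` for a larger constant implies `Loc` for a smaller one).  Hypotheses: hPT, hCEF. -/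
def StLCZ : Prop :=
  ∀ R : ℝ, 0 < R → ∃ C : ℝ, 1 ≤ C ∧ ∀ (s la mu D : ℝ) (c : Pl) (k : ℤ) (g : Pl → ℝ) (x x' : Pl), |s| ≤ 1 →
    ‖c‖ ≤ R → 1 ≤ la → la ≤ 12 → 1 ≤ mu → mu ≤ 30 → 0 ≤ D → BB g → (∀ x, 0 ≤ g x) → Loc C D g x →
    x ∈ Sq x' (2 * (2 : ℝ) ^ k) → CA s la mu k 0 g (x' - (2 : ℝ) ^ k • c) ≤ D

/-- BTW (about 400 lines), pairs of hits in two classes without persistence.  `SYS` gives the systems of the classes `u`, `u'`; write `s_a = sl τ u a`, `z_a = x - 2^k ce c φ u a`, `A1 b = Wt τ u' Yb (sl τ u' b) + u' + 1`.  Let `x ∈ G`, `a`, `b` as on the left.  (1) If `κ₁ ≤ CA s_b 12 30 k A' g' z_b` for some `A' ≤ A1 b`: as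
`CA s_b 12 30 k 0 g' z_b ≤ D' ≤ κ₁/2` (LCZ), `κ₁/2 ≤ MC`: Chebyshev, first term.  (2) Otherwise: `|Z_a| ≥ η` gives `CA s_a 4 6 k m₀ g z_a ≥ η/24 ≥ κ` for some `m₀ ∈ {mm, mp}`, `m₀ ≤ mm τ u a` (CEY); let `A_R ≤ mm τ u a` be the least `A` with `κ ≤ CA s_a 4 6 k A g z_a`; `A_R ≥ 1` since `CA s_a 4 6 k 0 g z_a ≤ D < κ` (LCZ).
If `|s_a - s_b| ≤ 2^(-A_R)`: GON with `m = mm τ u a`; its near condition: CQ (2), and `A ≤ A1 b`: if `A ≤ u` clear, otherwise CQ (3): `Yb ≤ 2^(u'-u) - 1 ≤ nn τ u' s_b (A-u-1)`, so `A - u - 1 ≤ Wt τ u' Yb s_b` (WT (1)).  The set on the right of GON: `CA s_a 6 16 k 0 g z_a ≤ D ≤ κ/8` (LCZ, near `G`), so `κ/8 ≤ MC s_a 6 16 (mm τ u a) ≤ MC s_a 6 16 (Wt τ u 2 s_a + u + 1)`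
(WT (5)): Chebyshev; sum over `a`: second term.  If `|s_a - s_b| > 2^(-A_R)`: let `A` be such that `2^(-A)/2 ≤ |s_a - s_b| ≤ 2·2^(-A)` and `A < A_R` (if `|s_a - s_b| ≤ 1` the `A` with `2^(-A-1) < |s_a - s_b| ≤ 2^(-A)`; otherwise `A = 0`); for `A' ≤ A`, `CA s_a 4 6 k A' g z_a < κ`: GTH (with this `A`, a function of `a, b`); sum over the at most `M` chords `a`
with `Q a b`, then over `b`; Chebyshev for `vol{η/2 ≤ |Z_b|}`: third term.  Hypotheses: hPT, hGON, hGTH, hLCZ, hCEY, hCQ, hWT, hSYS, hYB, hGPG. -/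
def StBTW : Prop :=
  ∀ (φ τ : ℝ → ℝ) (A p : ℝ) (c : Pl), Graph φ τ → 0 < A → GapP A p τ → 1 < p → ∃ C : ℝ, 1 ≤ C ∧
    ∀ (u u' : ℕ) (Yb M κ κ₁ η D D' : ℝ) (Q : ℕ → ℕ → Prop) (g g' : Pl → ℝ) (G : Set Pl), 2 ≤ u → u ≤ u' →
      2 ≤ Yb → Yb ≤ (2 : ℝ) ^ (u' - u) - 1 → 0 < η → η ≤ 1 → 0 < κ → 0 < κ₁ → C * κ₁ ≤ η → C * κ ≤ η →
      0 ≤ D → 0 ≤ D' → C * D ≤ κ → C * D' ≤ κ₁ → 0 ≤ M →
      (∀ b < 2 ^ u', ({a : ℕ | a < 2 ^ u ∧ Q a b}.ncard : ℝ) ≤ M) → BB g → BB g' →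
      (∀ x, 0 ≤ g x ∧ g x ≤ 1) → (∀ x, 0 ≤ g' x ∧ g' x ≤ 1) → (∀ x ∈ G, Loc C D g x ∧ Loc C D' g' x) →
      ∑' k : ℤ, volume {x | x ∈ G ∧ ∃ a < 2 ^ u, ∃ b < 2 ^ u', Q a b ∧
        η ≤ |Zc c φ τ u 0 k a g x| ∧ η ≤ |Zc c φ τ u' 0 k b g' x|} ≤
        ENNReal.ofReal (C / κ₁ ^ 2) * (∑' k : ℤ, ∑ b ∈ Finset.range (2 ^ u'),
          ∫⁻ x, MC (sl τ u' b) 12 30 (Wt τ u' Yb (sl τ u' b) + u' + 1) k g' x ^ 2) +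
        ENNReal.ofReal (C * κ₁ / (η ^ 2 * κ ^ 2)) * (∑' k : ℤ, ∑ a ∈ Finset.range (2 ^ u),
          ∫⁻ x, MC (sl τ u a) 6 16 (Wt τ u 2 (sl τ u a) + u + 1) k g x ^ 2) +
        ENNReal.ofReal (C * κ * M / η ^ 5) * ∑' k : ℤ, ∑ b ∈ Finset.range (2 ^ u'),
          ∫⁻ x, ‖Zc c φ τ u' 0 k b g' x‖ₑ ^ 2

end Pool.Agent.Helper20.EQ
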