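import Pool.Agent.Helper20.EQ.St2
import Pool.Agent.Helper20.EQ.Defs2

/-!
# Project EQ (MP_cb927e_an): interface statements, part 3 (two classes; few hits in one class; summation over the levels)
-/

set_option autoImplicit false

open MeasureTheory Set Filter Topology
open scoped ENNReal RealInnerProductSpace

namespace Pool.Agent.Helper20.EQ

open Pool.Agent.Helper68.LM (Pl BB Bd Av HL ft fm DQ)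
open Pool.Agent.Helper20.RG
open Pool.Agent.Helper68.EP (elt GapP)

/-- GDL (about 150 lines).  `lev f j` is `0` or in `[1/2, 1)`, so `lev f j ≤ 2 (lev f j)² ≤ (1/2) 4^(-j) f²`; `HL R₀ (f²) x ≤ 4^l` gives `Loc Cf (4^l) (f²) x` (GD of project RG), so `∫_{Sq x (Cf 2^k)} lev f j ≤ 4^(l-j) 4^k`.  Last: `‖lev f j‖² ≤ 1` on `{2^j ≤ f < 2^(j+1)}`, these sets are disjoint
and there `2^(pj) ≤ f^p`.  Hypotheses: hGD. -/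
def StGDL : Prop :=
  (∀ (f : Pl → ℝ) (j : ℤ), BB f → (∀ x, 0 ≤ f x) → BB (lev f j) ∧ ∀ x, 0 ≤ lev f j x ∧ lev f j x ≤ 1) ∧
  (∀ (Cf R₀ : ℝ) (f : Pl → ℝ) (l j : ℤ) (x : Pl), 1 ≤ Cf → 2 * Cf ≤ R₀ → BB f → (∀ x, 0 ≤ f x) →
    Gd R₀ l f x → Loc Cf ((4 : ℝ) ^ (l - j)) (lev f j) x) ∧
  ∀ (p : ℝ) (f : Pl → ℝ), 0 < p → BB f → (∀ x, 0 ≤ f x) →
    ∑' j : ℤ, ENNReal.ofReal ((2 : ℝ) ^ (p * j)) * ∫⁻ x, ‖lev f j x‖ₑ ^ 2 ≤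
      ∫⁻ x, ENNReal.ofReal (f x) ^ p

/-- RIX (about 120 lines), change of the index of summation.  `∑_l ∑_u = ∑_u ∑_l`; for fixed `u` put `j = l - t + u + ρ`: `2^(pl) 2^(pu) = 2^(p(t-ρ)) 2^(pj)`; then for fixed `j` sum over `u` by the hypothesis with `g = lev f j` and GDL.  Hypotheses: hGDL. -/
def StRIX : Prop :=
  ∀ (p B : ℝ) (X : ℕ → (Pl → ℝ) → ℝ≥0∞), 0 < p → 0 ≤ B →
    (∀ g : Pl → ℝ, BB g → (∀ x, 0 ≤ g x ∧ g x ≤ 1) →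
      ∑' u : ℕ, ENNReal.ofReal ((2 : ℝ) ^ (-(p * u))) * X u g ≤ ENNReal.ofReal B * ∫⁻ x, ‖g x‖ₑ ^ 2) →
    ∀ (f : Pl → ℝ) (t : ℤ) (ρ : ℕ), BB f → (∀ x, 0 ≤ f x) →
      ∑' l : ℤ, ENNReal.ofReal ((2 : ℝ) ^ (p * l)) * ∑' u : ℕ, X u (lev f (l - t + u + ρ)) ≤
        ENNReal.ofReal ((2 : ℝ) ^ (p * (t - ρ)) * B) * ∫⁻ x, ENNReal.ofReal (f x) ^ p

/-- TWC (about 400 lines), two classes `u`, `u' = u + s`.  `η = 2^(-ρ-1)`, `Y = 2^(s/256)` (`≥ 2`), `s_a = sl τ u a`, `W_a = Wt τ u Y s_a`, `V_a = 10000 (W_a + ρ + 1)`, the same for `b`.  `Q a b`: `2^u < Y³` or `|s_a - s_b| ≤ 2^(-(W_a+1))`.  Let `x ∈ G`, with hits `a`, `b`.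
(1) `Q a b`: BTW with `Yb = 2^(s-1)`, `κ₁ = 2^(-s/4)`, `κ = max(2^(-s/16), C_B 4^(t-u-ρ))` (`C_B` the constant of BTW), `D = 4^(t-u-ρ)`, `D' = 4^(t-u'-ρ)`, `M = min(2^u, 2Y³)` (WT (6); number of `a ≤ 2^u`); conditions: `C_B κ₁, C_B κ ≤ η`, `C_B D' ≤ κ₁` hold for `u, s ≥ C₂ (t+ρ+1)`; `κ₁/κ² ≤ 2^(-s/8)`,
`κ M ≤ 2·2^(-s/16+3s/256) + C_B 4^t 2^(-u) ≤ 2·2^(-s/32) + C_B 4^t 2^(-u)`, `η^(-5) = 32·2^(5ρ)`.  (2) not `Q a b`: `Y³ ≤ 2^u`, `s_a ≠ s_b`, `Aa s_a s_b ≤ W_a + 1`.  If `MD_a(V_a) ≥ η/2` or `MD_b(V_b) ≥ η/2`: Chebyshev, `BU`.  Otherwise `|Z_a^w|, |Z_b^w| ≥ η/2` for `w ≤ V_a`, `w ≤ V_b`; `i ga ≤ 41·16 (Aa + ρ + 11) ≤ V_a`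
as `656·12 ≤ 10000`; and `Aa ≤ W_b + 2`: clear if `Aa ≤ 2`; otherwise `|s_a - s_b| ≤ 2^(-(Aa-1))`, `Y ≤ nn τ u s_a W_a ≤ nn τ u s_a (Aa-1)` (WT (2), decreasing), CQ (4) with `i + 1 = Aa - 1`: `nn τ u' s_b (Aa-2) ≥ (Y-1) 2^s - 1 ≥ Y`, WT (1).  So `i ga ≤ 656 (W_b + ρ + 13) ≤ V_b` (`656·13 ≤ 10000`).  PPG.
Constants: enlarge `C`, `C₂` (`Loc` for a larger constant is stronger).  Hypotheses: hBTW, hPPG, hWT, hCQ, hCN, hGPG. -/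
def StTWC : Prop :=
  ∀ (φ τ : ℝ → ℝ) (A p : ℝ) (c : Pl), Graph φ τ → 0 < A → GapP A p τ → 1 < p → p < 3 →
    ∃ (C : ℝ) (C₂ : ℕ), 1 ≤ C ∧ 1 ≤ C₂ ∧
    ∀ (u s t ρ : ℕ) (g g' : Pl → ℝ) (G : Set Pl), C₂ * (t + ρ + 1) ≤ u → C₂ * (t + ρ + 1) ≤ s →
      BB g → BB g' → (∀ x, 0 ≤ g x ∧ g x ≤ 1) → (∀ x, 0 ≤ g' x ∧ g' x ≤ 1) →
      (∀ x ∈ G, Loc C ((4 : ℝ) ^ ((t : ℤ) - u - ρ)) g x ∧ Loc C ((4 : ℝ) ^ ((t : ℤ) - u - s - ρ)) g' x) →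
      ∑' k : ℤ, volume {x | x ∈ G ∧ (Hh c φ τ u ρ k g x).Nonempty ∧ (Hh c φ τ (u + s) ρ k g' x).Nonempty} ≤
        ENNReal.ofReal (C * (4 : ℝ) ^ ρ) *
          ((if ((2 : ℝ) ^ ((s : ℝ) / 256)) ^ 3 ≤ (2 : ℝ) ^ u then
            BU c φ τ ((2 : ℝ) ^ ((s : ℝ) / 256)) (ρ + 1) u g else 0) +
            BU c φ τ ((2 : ℝ) ^ ((s : ℝ) / 256)) (ρ + 1) (u + s) g') +
        (ENNReal.ofReal (C * (2 : ℝ) ^ (-(((u : ℝ) + s) / 4)) * (2 : ℝ) ^ (p * u)) * (∫⁻ x, ‖g x‖ₑ ^ 2) +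
          ENNReal.ofReal (C * (2 : ℝ) ^ (-((u : ℝ) + s))) * ∫⁻ x, ‖g' x‖ₑ ^ 2) +
        (ENNReal.ofReal (C * (2 : ℝ) ^ ((s : ℝ) / 2)) * WR τ ((2 : ℝ) ^ (s - 1)) 12 30 (u + s) g' +
          ENNReal.ofReal (C * (4 : ℝ) ^ ρ * (2 : ℝ) ^ (-((s : ℝ) / 8))) * WR τ 2 6 16 u g +
          ENNReal.ofReal (C * (32 : ℝ) ^ ρ * ((2 : ℝ) ^ (-((s : ℝ) / 32)) + (4 : ℝ) ^ t * (2 : ℝ) ^ (-(u : ℝ)))) *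
            MI c φ τ (u + s) g')

/-- HBS (about 350 lines), two classes, summation.  TWC for all `l, u, s` with `g = lev f (l - t + u + ρ)`, `g' = lev f (l - t + (u+s) + ρ)`, `G = {x | Gd R₀ l f x}` (GDL: `4^(l-j) = 4^(t-u-ρ)`).  Then RIX for every term: (a) for fixed `s`, `X u g = BU .. u g` (`2 ≤ u`, `Y³ ≤ 2^u`) by BUN: `B = C (ρ+1) Y^(-p²/(p+1)) ≤ C (ρ+1) 2^(-s/256)`
(`p²/(p+1) ≥ 1`); the class `u' = u + s`: the sum over `u` is part of the sum over `u'` (`Y³ ≤ 2^u'`).  (b) `X u g = 2^(-(u+s)/4) 2^(pu) ∫ g²`, `B = C 2^(-s/4)`; `X u' g' = 2^(-u') ∫ g'²` for `u' ≥ s`, `B = C 2^(-s)`.  (c) WRF with `s`, `Y = 2^(s-1)`: `C 2^(s/2) (s+1) 2^((1-p)(s-1)) ≤ C (s+1) 2^(-s/2)` as `p > 2`.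
(d) WRF with `s = 1`, `Y = 2`: `C 4^ρ 2^(-s/8)`.  (e) MIQ: `C 32^ρ 2^(-s/32)` for fixed `s`; and `C 32^ρ 4^t 2^(-u)` for fixed `u`, sum over `s`.  Everything is multiplied by `2^(p(t-ρ)) ≤ 8^t`; the sums over `s ≥ C₂ (t+ρ+1)` (over `u ≥ C₂ (t+ρ+1)` in (e)) are `≤ C 2^(-(t+ρ))` for `C₂` large.
`R₀` is any number `≥ 2C`, `C` from TWC.  Hypotheses: hTWC, hGDL, hRIX, hBUN, hWRF, hMIQ. -/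
def StHBS : Prop :=
  ∀ (φ τ : ℝ → ℝ) (A p : ℝ) (c : Pl), Graph φ τ → 0 < A → GapP A p τ → 2 < p → p < 3 →
    ∃ (C : ℝ) (C₂ : ℕ), 1 ≤ C ∧ 1 ≤ C₂ ∧ ∀ (R₀ : ℝ) (t ρ : ℕ) (f : Pl → ℝ), C ≤ R₀ → BB f → (∀ x, 0 ≤ f x) →
      ∑' l : ℤ, ENNReal.ofReal ((2 : ℝ) ^ (p * l)) * ∑' (u : ℕ) (s : ℕ),
        (if C₂ * (t + ρ + 1) ≤ u ∧ C₂ * (t + ρ + 1) ≤ s then
          ∑' k : ℤ, volume {x | Gd R₀ l f x ∧ (Hh c φ τ u ρ k (lev f (l - t + u + ρ)) x).Nonempty ∧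
            (Hh c φ τ (u + s) ρ k (lev f (l - t + (u + s) + ρ)) x).Nonempty} else 0) ≤
        ENNReal.ofReal (C * (2 : ℝ) ^ (-((t : ℝ) + ρ))) * ∫⁻ x, ENNReal.ofReal (f x) ^ p

/-- ONE (about 100 lines), one hit.  Chebyshev: `vol {Hh nonempty} ≤ 4^(ρ+1) ∑_j ∫ ‖Zc ..‖²`; RIX with `X u g = 4^(ρ+1) MI c φ τ u g` (`2 ≤ u`), `B = C 4^(ρ+1)` (MIQ): `2^(p(t-ρ)) 4^ρ`.  Hypotheses: hGDL, hRIX, hMIQ. -/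
def StONE : Prop :=
  ∀ (φ τ : ℝ → ℝ) (A p : ℝ) (c : Pl), Graph φ τ → 0 < A → GapP A p τ → 2 < p → p < 3 →
    ∃ C : ℝ, 0 < C ∧ ∀ (t : ℤ) (ρ : ℕ) (f : Pl → ℝ), BB f → (∀ x, 0 ≤ f x) →
      ∑' l : ℤ, ENNReal.ofReal ((2 : ℝ) ^ (p * l)) * ∑' u : ℕ, (if 2 ≤ u then
        ∑' k : ℤ, volume {x | (Hh c φ τ u ρ k (lev f (l - t + u + ρ)) x).Nonempty} else 0) ≤
        ENNReal.ofReal (C * (2 : ℝ) ^ (p * t - (p - 2) * ρ)) * ∫⁻ x, ENNReal.ofReal (f x) ^ p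

/-- FWC (about 350 lines), few hits in one class.  `η = 2^(-ρ-1)`, `Y = m/8 ≥ 2`, `W_j = Wt τ u Y (sl τ u j)`, `V_j = 10000 (W_j + ρ + 1)`.  Let `x` be in the set on the left, `H` its hits, `#H ≥ m`.  If at least `m/2` of the `j ∈ H` have `MD_j(V_j) ≥ η/2`: Markov, `(2/m)(4/η²) ∑_j ∫ MD²` (`16·4^ρ`).  Otherwise let `P ⊆ H` be the others, `#P ≥ m/2`;
`|Z_j^w| ≥ η/2` for `j ∈ P`, `w ≤ V_j`.  For `j ∈ P` fewer than `Y = m/8` of the `j'` satisfy `|sl j - sl j'| ≤ 2^(-(W_j+1))` (WT (1); `j' = j` is one of them); so fewer than `2 #P m/8 ≤ (#P)²/2` ordered pairs `(j,j') ∈ P²` have `|sl j - sl j'| ≤ 2^(-(W_j+1))` or `≤ 2^(-(W_j'+1))`, and there is a pair with neither: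
`sl j ≠ sl j'`, `Aa ≤ W_j + 1`, `Aa ≤ W_j' + 1`, so `i ga ≤ 656 (Aa + ρ + 11) ≤ V_j, V_j'`.  PPG with `u' = u`, `g' = g`.  Hypotheses: hPPG, hWT. -/
def StFWC : Prop :=
  ∀ (φ τ : ℝ → ℝ) (A p : ℝ) (c : Pl), Graph φ τ → 0 < A → GapP A p τ → 1 < p → p < 3 →
    ∃ (C : ℝ) (C₂ : ℕ), 1 ≤ C ∧ 1 ≤ C₂ ∧
    ∀ (u t ρ : ℕ) (m : ℝ) (g : Pl → ℝ) (G : Set Pl), C₂ * (t + ρ + 1) ≤ u → 16 ≤ m →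
      BB g → (∀ x, 0 ≤ g x ∧ g x ≤ 1) → (∀ x ∈ G, Loc C ((4 : ℝ) ^ ((t : ℤ) - u - ρ)) g x) →
      ∑' k : ℤ, volume {x | x ∈ G ∧ m ≤ ((Hh c φ τ u ρ k g x).ncard : ℝ)} ≤
        ENNReal.ofReal (C * (4 : ℝ) ^ ρ / m) * BU c φ τ (m / 8) (ρ + 1) u g +
        ENNReal.ofReal (C * (2 : ℝ) ^ (-((u : ℝ) / 4)) * (2 : ℝ) ^ (p * u)) * ∫⁻ x, ‖g x‖ₑ ^ 2

/-- FWS (about 250 lines), few hits in one class, summation.  FWC for all `l`, `u ≥ 2^(δt)` (so `u ≥ C₂ (t+ρ+1)` and `2^u ≥ (m/8)³` for `t ≥ t₀`), `g = lev f (l - t + u + ρ)`, `m = 2^((1-ε)t) ≥ 16`.  RIX with `X u g` = the right side of FWC: BUN with `Y = m/8`: `B = C 4^ρ m^(-1) (ρ+1) m^(-p²/(p+1))`, and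
`∑_{u ≥ 2^(δt)} C 2^(-u/4) ≤ C 2^(-2^(δt)/4)`.  `2^(p(t-ρ)) 4^ρ (ρ+1) ≤ C 2^(pt)` (`p > 2`), and the exponent of `2` is `pt - (1-ε) t (1 + p²/(p+1)) = -t/(p+1) + ε t (p + 1/(p+1)) ≤ -t/16` for `ε ≤ 1/100`.  `2^(pt) 2^(-2^(δt)/4) ≤ C 2^(-t)`.  Hypotheses: hFWC, hGDL, hRIX, hBUN. -/
def StFWS : Prop :=
  ∀ (φ τ : ℝ → ℝ) (A p : ℝ) (c : Pl), Graph φ τ → 0 < A → GapP A p τ → 2 < p → p < 3 →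
    ∀ (ε δ : ℝ) (Cρ : ℕ), 0 < ε → ε ≤ 1 / 100 → 0 < δ →
    ∃ (C : ℝ) (t₀ : ℕ), 1 ≤ C ∧ ∀ (R₀ : ℝ) (t ρ : ℕ) (f : Pl → ℝ), C ≤ R₀ → t₀ ≤ t → ρ ≤ Cρ * t → BB f →
      (∀ x, 0 ≤ f x) →
      ∑' l : ℤ, ENNReal.ofReal ((2 : ℝ) ^ (p * l)) * ∑' u : ℕ, (if (2 : ℝ) ^ (δ * t) < u then
        ∑' k : ℤ, volume {x | Gd R₀ l f x ∧ (2 : ℝ) ^ ((1 - ε) * t) ≤
          ((Hh c φ τ u ρ k (lev f (l - t + u + ρ)) x).ncard : ℝ)} else 0) ≤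
        ENNReal.ofReal (C * (2 : ℝ) ^ (-((t : ℝ) / 16))) * ∫⁻ x, ENNReal.ofReal (f x) ^ p

end Pool.Agent.Helper20.EQ
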