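import Pool.Agent.Helper20.EQ.St3
import Pool.Agent.Helper20.EQ.Defs3

/-!
# Project EQ (MP_cb927e_an): interface statements, part 4 (many hits in one class `u ≤ 2^(δt)`)

The class theorem of project RG with the list of lengths `om v b l`, `v = (Cρ + 1) u`, instead of `om u b l`.
-/

set_option autoImplicit false

open MeasureTheory Set Filter Topology
open scoped ENNReal RealInnerProductSpace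

namespace Pool.Agent.Helper20.EQ

open Pool.Agent.Helper68.LM (Pl BB Bd Av HL ft fm DQ)
open Pool.Agent.Helper20.RG
open Pool.Agent.Helper68.EP (elt GapP)

/-- VL (about 250 lines), the statements PS, INV, LBW, MK, ER of project RG with the list `v ≥ u`.  Put `Zf' W k j x = Zf W k j x` for `j < 2^u` and `0` otherwise, `s' j = s j` for `j < 2^u` and `0` otherwise, `A' = A 2^u/2^v`.  Then `Fam v Cf K A' σ s' g Zf'`: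
`one`, `cont`, `inv`, `lb` are clear (the sums over `j < 2^v` are sums over `j < 2^u`), `all`, `tot`: `u ≤ v`; `dif`: `v ≤ W` gives `u ≤ W`, and `2^v (A' T^(-1/σ)) = 2^u (A T^(-1/σ))`.  `Pe Zf' v η b k x = Pv Zf u v η b k x` (for `j ≥ 2^u` the conditions `η/2 ≤ 0` (`b ≥ 1`) or
`η/(2 Ms v) ≤ 0` (`b = 0`) fail), `mu v A' σ W T = mu u A σ W T`, and the `Ew Zf' v ..` for `j ≥ 2^u` are empty.  So the five clauses are PS, INV, LBW, MK, ER for `v`, `Zf'`, `A'`.  Hypotheses: hPS, hINV, hLBW, hMK, hER. -/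
def StVL : Prop :=
  (∀ (Zf : ℕ → ℤ → ℕ → Pl → ℝ) (u v : ℕ) (η : ℝ) (k : ℤ) (x : Pl), 1 ≤ v → u ≤ v → 0 < η →
    {j : ℕ | j < 2 ^ u ∧ η ≤ |Zf (om v 0 0) k j x|}.ncard ≤
      ∑ b ∈ Finset.range (3 * v + 2), (Pv Zf u v η b k x).ncard) ∧
  ∀ (u v : ℕ) (Cf : ℝ) (K : ℕ) (A σ : ℝ) (s : ℕ → ℝ) (g : Pl → ℝ) (Zf : ℕ → ℤ → ℕ → Pl → ℝ) (η : ℝ),
    Fam u Cf K A σ s g Zf → 1 ≤ u → u ≤ v → 1 ≤ Cf → 0 ≤ A → 0 < η →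
    (∀ (b i : ℕ) (k : ℤ) (j : ℕ), 2 ≤ v → (2 : ℝ) ^ (-(3 * (v : ℤ))) ≤ η → 1 ≤ b → i < 16 * v → j < 2 ^ u →
      ∀ x ∈ Ew Zf v η b i (3 / 8) k j, ∀ lam : ℝ,
      |lam| ≤ 10 * (2 : ℝ) ^ (k + (om v (b - 1) (16 * v - i) : ℤ) - ((2 ^ (b - 1) * (16 * v) : ℕ) : ℤ)) →
        x + lam • E (s j) ∈ Ew Zf v η b i (1 / 4) k j) ∧
    (∀ (Λ : ℝ) (b i : ℕ) (k : ℤ) (x : Pl), 0 ≤ Λ → BB g → (∀ x, 0 ≤ g x ∧ g x ≤ 1) → Loc Cf Λ g x →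
      ∑ j ∈ Finset.range (2 ^ u), volume (Ew Zf v η b i (1 / 4) k j ∩
        Sq x (4 * (2 : ℝ) ^ (k + (om v (b - 1) (16 * v - i) : ℤ)))) ≤
        ENNReal.ofReal (16 * Cf * Λ / η ^ 2 * (4 : ℝ) ^ (k + (om v (b - 1) (16 * v - i) : ℤ)))) ∧
    (∀ (m₁ : ℝ) (b T : ℕ), 0 < m₁ → b ≤ 3 * v → 1 ≤ T →
      ∑' k : ℤ, volume {x | m₁ ≤ ((Pv Zf u v η b k x).ncard : ℝ)} ≤
        ENNReal.ofReal (1 / m₁ * (2 * Ms v / η) ^ 2 *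
          (16 * v * (Cf * mu u A σ ((2 : ℝ) ^ b * (1024 * (v : ℝ) ^ 2)) T))) * ∫⁻ x, ‖g x‖ₑ ^ 2) ∧
    (∀ b i : ℕ,
      (∑' k : ℤ, ∑ j ∈ Finset.range (2 ^ u), volume (Ew Zf v η b i (1 / 4) k j) ≤
        ENNReal.ofReal ((4 / η) ^ 2 * (Cf * (K + v + 1))) * ∫⁻ x, ‖g x‖ₑ ^ 2) ∧
      (b ≤ 3 * v → ∀ T : ℕ, 1 ≤ T →
        ∑' k : ℤ, ∑ j ∈ Finset.range (2 ^ u), volume (Ew Zf v η b i (1 / 4) k j) ≤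
          ENNReal.ofReal ((4 * Ms v / η) ^ 2 *
            (16 * v * (Cf * mu u A σ ((2 : ℝ) ^ b * (1024 * (v : ℝ) ^ 2)) T))) * ∫⁻ x, ‖g x‖ₑ ^ 2))

/-- WCV (about 250 lines), as WCL of project RG (module Helper43.RG.M_WCL) with the list `v`.  `a = k + om v (b-1) (16v)`, `γ = 2^(b-1) 64v`; then `a - iγ = k + om v (b-1) (16v-i)`.  WC with `n = 16v`, `N = 2^u`, `S i j = Ew Zf v .. b i (1/4) k j` (open sets by `Fam.cont`),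
`r₁ i = 2·2^(a-iγ-3γ/4)`, `r₂ i = (5/2)·2^(a-iγ-γ/2)`, `D₀ = 16 Cf Λ/η²` (VL).  A point `x ∈ G` with `m₁ ≤ #Pv b` is either in the set of WC, or there is `i < 16v` with both `Dens` (`D = 64 D₀`); `Pv b ⊆ {j : x ∈ Ew .. b i (3/8) k j}` (`b' = b-1`, `l = 16v - i`), so RDS applies with
`Et j = Ew (3/8)`, `Er j = Ew (1/4)`, `p = a - iγ - 3γ/4`, `L = 2^(a-iγ-γ/2)`, `L₂ = 2^(a-iγ-γ/4)`, `α = 2^(-γ/16)` (VL gives the ridge property): `100·2^p ≤ α L` as `3γ/16 ≥ 12v ≥ 24`, `2^u L ≤ α² L₂` as `γ/8 ≥ 8v ≥ 8u`; exotic partners: `Slo` with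
`i = γ/16 = 2^(b+1) v` gives `nv u v b A σ`.  Hypotheses: hWC, hRDS, hVL. -/
def StWCV : Prop :=
  ∃ C₂ : ℝ, 0 < C₂ ∧ ∀ (u v : ℕ) (Cf : ℝ) (K : ℕ) (A σ : ℝ) (s : ℕ → ℝ) (g : Pl → ℝ)
    (Zf : ℕ → ℤ → ℕ → Pl → ℝ) (η Λ m₁ : ℝ) (b : ℕ) (k : ℤ) (G : Set Pl),
    Fam u Cf K A σ s g Zf → 1 ≤ Cf → 0 ≤ A → Slo u A σ s → BB g → (∀ x, 0 ≤ g x ∧ g x ≤ 1) →
    (∀ x ∈ G, Loc Cf Λ g x) → 1 ≤ u → u ≤ v → 2 ≤ v → (2 : ℝ) ^ (-(3 * (v : ℤ))) ≤ η → η ≤ 1 → 0 < Λ →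
    1 ≤ b → 200 * nv u v b A σ ≤ m₁ → 1000 ≤ m₁ → 200 * (64 * (16 * Cf * Λ / η ^ 2)) ≤ m₁ →
      volume {x | x ∈ G ∧ m₁ ≤ ((Pv Zf u v η b k x).ncard : ℝ)} ≤
        ENNReal.ofReal ((1 / 2) ^ (16 * v) / (16 * Cf * Λ / η ^ 2)) *
          (∑ j ∈ Finset.range (2 ^ u), volume (Ew Zf v η b 0 (1 / 4) k j)) +
        ∑ i ∈ Finset.range (16 * v),
          ENNReal.ofReal (C₂ * nv u v b A σ * (64 * (16 * Cf * Λ / η ^ 2)) / m₁ ^ 3) *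
            ∑ j ∈ Finset.range (2 ^ u), volume (Ew Zf v η b i (1 / 4) k j)

/-- NVA (about 150 lines), numbers.  `N = 2^u`, `P` = `C u^12` (`v = (Cρ+1) u`), and `P ≤ C 2^(12 dl t)`, `12 dl ≤ (6/10) e1`.  `T = ⌈N^(p/(p+1))⌉`: `T ≤ 2 N^(p/(p+1))`, `N T^(-1/p) ≤ N^(p/(p+1))`, so `mu ≤ P N^(p/(p+1))`; `1/m₁ ≤ P 2^(-(1-e1) t)`.  The expression is at most
`P 2^(-(1-e1) t) 4^ρ N^(p/(p+1))`.  Its exponent minus `tg` is `(p-1) t - (p²/(p+1)) u - (p-2) ρ + 2 e1 t + 12 dl t`, and with `u ≥ (1-e1) t` at most `-t/(p+1) + e1 t p²/(p+1) + 2 e1 t + e1 t ≤ -t/4 + 6 e1 t ≤ 0` (`e1 ≤ 1/100`).  (`t₀` may be `0`.)  Hypotheses: none. -/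
def StNVA : Prop :=
  ∀ (Cf A p : ℝ) (Cρ : ℕ), 1 ≤ Cf → 0 ≤ A → 2 < p → p < 3 → ∃ (t₀ : ℕ) (C : ℝ), 0 < C ∧
    ∀ (u v t ρ : ℕ) (η m₁ : ℝ), t₀ ≤ t → Nu p Cρ u v t ρ η m₁ → ∃ T : ℕ, 1 ≤ T ∧
      1 / m₁ * (2 * Ms v / η) ^ 2 *
        (16 * v * (Cf * mu u A p ((2 : ℝ) ^ 0 * (1024 * (v : ℝ) ^ 2)) T)) ≤ C * (2 : ℝ) ^ tg p u t ρ

/-- NVB (about 250 lines), numbers.  `W = 2^b 1024 v² = 512 v (2^(b+1) v)`, `P = C u^12` as in NVA.  For large `t` `m₁ ≥ 400`.  From `m₁ < 200 nv`: `N A (2^(b+1) v)^(-1/p) ≥ m₁/400`, so `A > 0`, `W ≤ 512 v (400 A N/m₁)^p`.  `T = ⌈(W N)^(p/(p+1))⌉`: `mu ≤ (2 + A) (W N)^(p/(p+1)) + W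
≤ P N^p m₁^(-p²/(p+1))` (`m₁^(-p) ≤ m₁^(-p²/(p+1))` as `m₁ ≥ 1`).  So the expression is at most `P m₁^(-1-p²/(p+1)) 4^ρ N^p`, `1 + p²/(p+1) = p + 1/(p+1) ≤ 4`, `m₁^(-1) ≤ P 2^(-(1-e1) t)`: its exponent minus `tg` is at most
`-t/(p+1) + 4 e1 t + e1 t - (p-2) ρ + 12 dl t ≤ -t/4 + 6 e1 t ≤ 0`.  (All powers of `u` together: `Ms v² v ≤ C u^5`, `m₁^(-(p+1/(p+1)))`: `C u^4`, `(512 v)^(p/(p+1))`: `C u`.)  Hypotheses: none. -/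
def StNVB : Prop :=
  ∀ (Cf A p : ℝ) (Cρ : ℕ), 1 ≤ Cf → 0 ≤ A → 2 < p → p < 3 → ∃ (t₀ : ℕ) (C : ℝ), 0 < C ∧
    ∀ (u v t ρ : ℕ) (η m₁ : ℝ) (b : ℕ), t₀ ≤ t → Nu p Cρ u v t ρ η m₁ → 1 ≤ b → b ≤ 3 * v →
      m₁ < 200 * nv u v b A p → ∃ T : ℕ, 1 ≤ T ∧
      1 / m₁ * (2 * Ms v / η) ^ 2 *
        (16 * v * (Cf * mu u A p ((2 : ℝ) ^ b * (1024 * (v : ℝ) ^ 2)) T)) ≤ C * (2 : ℝ) ^ tg p u t ρ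

/-- NVC (about 120 lines), numbers for large `t`.  `m₁ ≥ 2^((1-e1) t)/(C 2^(dl t))`.  `16 Cf Λ/η² = 256 Cf 4^(t-u)`, `4^(t-u) ≤ 2^(2 e1 t)`.  `ρ + 2 ≤ 3v`: `t ≤ 2u`, so `ρ + 2 ≤ 2 Cρ u + 2 ≤ 3 (Cρ + 1) u`.  `nv u v (3v+1) A p ≤ 1 + A 2^(u - 3v/p) ≤ 1 + A`.
Last: the left side is at most `C 2^(-16v) 4^(u-t) 4^ρ (2^(pu) + v + 1)`, its exponent minus `tg` is at most `-16 v + 2u + (p-2) t + e1 t + v ≤ 0` (`t ≤ 2u`, `u ≤ v`).  Hypotheses: none. -/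
def StNVC : Prop :=
  ∀ (Cf A p : ℝ) (Cρ : ℕ), 1 ≤ Cf → 0 ≤ A → 2 < p → p < 3 → ∃ (t₀ : ℕ) (C : ℝ), 0 < C ∧
    ∀ (u v t ρ : ℕ) (η m₁ K : ℝ), t₀ ≤ t → Nu p Cρ u v t ρ η m₁ → 0 ≤ K → K ≤ Cf * (2 : ℝ) ^ (p * u) →
      1000 ≤ m₁ ∧ 200 * (64 * (16 * Cf * (4 : ℝ) ^ ((t : ℤ) - u - ρ) / η ^ 2)) ≤ m₁ ∧
      (2 : ℝ) ^ (-(3 * (v : ℤ))) ≤ η ∧ η ≤ 1 ∧ 200 * nv u v (3 * v + 1) A p ≤ m₁ ∧
      (1 / 2) ^ (16 * v) / (16 * Cf * (4 : ℝ) ^ ((t : ℤ) - u - ρ) / η ^ 2) *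
        ((4 / η) ^ 2 * (Cf * (K + v + 1))) ≤ C * (2 : ℝ) ^ tg p u t ρ

/-- NVD (about 250 lines), numbers.  `W = 2^b 1024 v² = 512 v (2^(b+1) v)`, `P = C u^12`.  CLAIM: for a suitable `V`, `nv V ≤ P 4^ρ N^p`.  If `W ≥ N^p` (in particular if `b = 3v+1`, `W ≥ N^3`): `nv ≤ 1 + A N (512 v)^(1/p) W^(-1/p) ≤ P`, and the first `V` is `≤ P 4^ρ N^p`.
If `W < N^p` then `b ≤ 3v`; second `V` with `T = ⌈(W N)^(p/(p+1))⌉`: `mu ≤ (2+A) (W N)^(p/(p+1)) + W`, and `(1 + P N W^(-1/p)) ((W N)^(p/(p+1)) + W) ≤ P N^p`: all powers of `W` here are nonnegative (`p/(p+1) - 1/p > 0`), and at `W = N^p` one gets `N^p` (compare Helper43.RG.M_NBD, `σ = p`).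
Then the expression is `≤ P 4^(t-u) 4^ρ N^p m₁^(-3)`, `m₁^(-3) ≤ P 2^(-3(1-e1) t)`; its exponent minus `tg` is `(p-1) t - 2u - (p-2) ρ + 3 e1 t + e1 t + 12 dl t`, and with `u ≥ (1-e1) t` at most `-(3-p) t + 6 e1 t + e1 t ≤ 0` (`e1 = (3-p)/100`).  (Powers of `u`: `16 v`, `Ms v² 16 v ≤ C u^5`, `(3v+2)³`,
`v^(1/p)`: at most `u^10`.)  Hypotheses: none. -/
def StNVD : Prop :=
  ∀ (Cf A p C₂ : ℝ) (Cρ : ℕ), 1 ≤ Cf → 0 ≤ A → 2 < p → p < 3 → 0 < C₂ → ∃ (t₀ : ℕ) (C : ℝ), 0 < C ∧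
    ∀ (u v t ρ : ℕ) (η m₁ K : ℝ) (b : ℕ), t₀ ≤ t → Nu p Cρ u v t ρ η m₁ → 0 ≤ K →
      K ≤ Cf * (2 : ℝ) ^ (p * u) → 1 ≤ b → b ≤ 3 * v + 1 →
      ∃ V : ℝ, 0 ≤ V ∧ (V = (4 / η) ^ 2 * (Cf * (K + v + 1)) ∨ (b ≤ 3 * v ∧ ∃ T : ℕ, 1 ≤ T ∧
        V = (4 * Ms v / η) ^ 2 * (16 * v * (Cf * mu u A p ((2 : ℝ) ^ b * (1024 * (v : ℝ) ^ 2)) T)))) ∧
      16 * v * (C₂ * nv u v b A p * (64 * (16 * Cf * (4 : ℝ) ^ ((t : ℤ) - u - ρ) / η ^ 2)) / m₁ ^ 3) * V ≤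
        C * (2 : ℝ) ^ tg p u t ρ

/-- LOS (about 300 lines), many hits in one class.  If `2^u < 2^((1-e1) t)` the sets are empty, so let `(1 - e1) t ≤ u`.  `v = (Cρ+1) u`, `η₀ = 2^(-ρ-1)`, `η = η₀/2`, `m = 2^((1-e1) t)`, `m₁ = (m/2)/(3v+2)`: `Nu p Cρ u v t ρ η m₁`.  `Zf w k j = Zc c φ τ u w k j g`: `Fam u Cf K A' p (sl τ u) g Zf`, `Slo u A' p (sl τ u)`
(FAM, SYS second part, `σ = p`, `A' = A^(1/p)`, GPG; `K = KA A' p u ≤ Cf 2^(pu)`; one constant `Cf` for everything, `Fam` is monotone in `Cf`).  Let `x` be in the set on the left.  (0) If at least `m/2` of its hits have `|Z^(om v 0 0) - Z^0| ≥ η₀/2`: Markov and DFZ (`w = om v 0 0 = 1024 v²`, `T` from NVA):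
`(2/m)(4/η₀²) C (T + u + 1 + (w+1)(1 + 2^u A' T^(-1/p))) ≤ (1/m₁)(2 Ms v/η)² 16 v C mu`: NVA.  Otherwise at least `m/2` of the `j` satisfy `η ≤ |Z^(om v 0 0)|`, and by VL (1) `m₁ ≤ #Pv b` for some `b < 3v+2`.  `b = 0`: VL (4), NVA.  `1 ≤ b ≤ 3v` and `m₁ < 200 nv`: VL (4), NVB.  Otherwise `200 nv ≤ m₁` (`b = 3v+1`: NVC): WCV with `Λ = 4^(t-u-ρ)`
(NVC), VL (5) (first or second bound according to NVD), NVC, NVD.  The sum over the `3v+2` values of `b` costs a factor `3v + 2 ≤ C 2^(dl t)`: so the exponent is `tg + dl t`.  Hypotheses: hVL, hWCV, hNVA, hNVB, hNVC, hNVD, hDFZ, hFAM, hSYS, hGPG. -/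
def StLOS : Prop :=
  ∀ (φ τ : ℝ → ℝ) (A p : ℝ) (c : Pl), Graph φ τ → 0 < A → GapP A p τ → 2 < p → p < 3 → ∀ Cρ : ℕ,
    ∃ (C : ℝ) (t₀ : ℕ), 1 ≤ C ∧ ∀ (u t ρ : ℕ) (g : Pl → ℝ) (G : Set Pl), t₀ ≤ t → 2 ≤ u →
      (u : ℝ) ≤ (2 : ℝ) ^ (dl p * t) → ρ ≤ Cρ * t → BB g → (∀ x, 0 ≤ g x ∧ g x ≤ 1) →
      (∀ x ∈ G, Loc C ((4 : ℝ) ^ ((t : ℤ) - u - ρ)) g x) →
      ∑' k : ℤ, volume {x | x ∈ G ∧ (2 : ℝ) ^ ((1 - e1 p) * t) ≤ ((Hh c φ τ u ρ k g x).ncard : ℝ)} ≤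
        ENNReal.ofReal (C * (2 : ℝ) ^ (tg p u t ρ + dl p * t)) * ∫⁻ x, ‖g x‖ₑ ^ 2

/-- HAS (about 150 lines), many hits in one class, summation.  `u > 2^(dl t)`: FWS with `ε = e1 p`, `δ = dl p`.  `2 ≤ u ≤ 2^(dl t)`: LOS for all `l`, `g = lev f (l - t + u + ρ)`, `G = {x | Gd R₀ l f x}` (GDL), and RIX with `X u g = C 2^(tg p u t ρ + dl t) ∫ g²` for `u ≤ 2^(dl t)` and `0` otherwise:
`B = C (2^(dl t) + 1) 2^(-p(t-ρ) - e1 t + dl t)`, so the total is `≤ C 2^(2 dl t + 1 - e1 t) ≤ C 2^(-e1 t/2)`; and `2^(-t/16) ≤ 2^(-e1 t/2)`.  Hypotheses: hLOS, hFWS, hGDL, hRIX. -/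
def StHAS : Prop :=
  ∀ (φ τ : ℝ → ℝ) (A p : ℝ) (c : Pl), Graph φ τ → 0 < A → GapP A p τ → 2 < p → p < 3 → ∀ Cρ : ℕ,
    ∃ (C : ℝ) (t₀ : ℕ), 1 ≤ C ∧ ∀ (R₀ : ℝ) (t ρ : ℕ) (f : Pl → ℝ), C ≤ R₀ → t₀ ≤ t → ρ ≤ Cρ * t → BB f →
      (∀ x, 0 ≤ f x) →
      ∑' l : ℤ, ENNReal.ofReal ((2 : ℝ) ^ (p * l)) * ∑' u : ℕ, (if 2 ≤ u then
        ∑' k : ℤ, volume {x | Gd R₀ l f x ∧ (2 : ℝ) ^ ((1 - e1 p) * t) ≤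
          ((Hh c φ τ u ρ k (lev f (l - t + u + ρ)) x).ncard : ℝ)} else 0) ≤
        ENNReal.ofReal (C * (2 : ℝ) ^ (-(e1 p / 2 * t))) * ∫⁻ x, ENNReal.ofReal (f x) ^ p

end Pool.Agent.Helper20.EQ
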