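import Pool.Agent.Helper20.EQ.St4
import Pool.Agent.Helper20.RG.St3

/-!
# Project EQ (MP_cb927e_an): interface statements, part 5 (pigeonhole, strong type estimate, the theorem)
-/

set_option autoImplicit false

open MeasureTheory Set Filter Topology
open scoped ENNReal RealInnerProductSpace

namespace Pool.Agent.Helper20.EQ

open Pool.Agent.Helper68.LM (Pl BB Bd Av HL ft fm DQ)
open Pool.Agent.Helper20.RG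
open Pool.Agent.Helper68.EP (elt GapP)
open Pool.Agent.Helper61.Lacunary (ConditionG LpBounded)

/-- the part of `f` of height at least `2^(l-1)` -/
noncomputable def fh (l : ℤ) (f : Pl → ℝ) (x : Pl) : ℝ := if (2 : ℝ) ^ (l - 1) ≤ f x then f x else 0

/-- difference of `Sa u - Sa (u-1)` and the normalised sum of the chord operators -/
noncomputable def er (c : Pl) (φ τ : ℝ → ℝ) (u : ℕ) (k : ℤ) (g : Pl → ℝ) (x : Pl) : ℝ :=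
  Sa c φ τ u k g x - Sa c φ τ (u - 1) k g x -
    (1 / (2 : ℝ) ^ u) * ∑ j ∈ Finset.range (2 ^ u), Zc c φ τ u 0 k j g x

/-- normalised sum of the absolute values of the chord operators -/
noncomputable def Ht (c : Pl) (φ τ : ℝ → ℝ) (u : ℕ) (k : ℤ) (g : Pl → ℝ) (x : Pl) : ℝ≥0∞ :=
  ENNReal.ofReal (1 / (2 : ℝ) ^ u) * ∑ j ∈ Finset.range (2 ^ u), ‖Zc c φ τ u 0 k j g x‖ₑ

/-- PIG (about 300 lines), pigeonhole.  `fh l f = ∑_{J=l-1}^{J₁} 2^(J+1) lev f J` (`f < 2^(J₁+1)`), YB (linearity; `Zc` of a function with values in `[0,1]` has absolute value at most `1`).  If `z = |Zc .. u .. a (lev f J)| ≠ 0` let `2^(-ρ-1) < z ≤ 2^(-ρ)`: `a` is in `Hh c φ τ u ρ k (lev f J) x`; so `z ≤ ∑_ρ 2^(-ρ) 1[a ∈ Hh ..]`.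
So `∑_u Ht ≤ ∑_{u ≥ 2} ∑_{J ∈ ℤ} ∑_ρ 2^(J+1-u-ρ) #Hh c φ τ u ρ k (lev f J) x = ∑_{t ∈ ℤ} ∑_ρ 2^(l+1-t) n(t,ρ)` (for fixed `u`, `ρ`: `J = l - t + u + ρ`), `n(t,ρ) = ∑_{u ≥ 2} #Hh c φ τ u ρ k (lev f (l-t+u+ρ)) x`.  Suppose none of the four alternatives holds.  Then `n(t,ρ) = 0` if `t ≤ t₀` or
`ρ ≥ Cρ t`.  For `t > t₀`, `ρ < Cρ t` put `L = C₂ (t+ρ+1) ≥ 1`: the classes `u ≥ 2` with `Hh` nonempty are `< L` or in `[u₁, u₁ + L)`, `u₁` the smallest one `≥ L` (third alternative), so there are at most `2L`, and each has less than `2^((1-e1) t)` hits: `n(t,ρ) ≤ 2L 2^((1-e1) t)`.  So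
`∑_u Ht ≤ 2^l · 2 ∑_{t > t₀} 2^(-t) Cρ t · 2 C₂ ((Cρ+1) t + 1) 2^((1-e1) t) < 2^l` for `t₀` large (`∑ t² 2^(-e1 t)` converges).  Hypotheses: hYB. -/
def StPIG : Prop :=
  ∀ (φ τ : ℝ → ℝ) (p : ℝ) (c : Pl), Graph φ τ → 2 < p → p < 3 → ∀ C₂ Cρ t₁ : ℕ, 1 ≤ C₂ →
    ∃ t₀ : ℕ, t₁ ≤ t₀ ∧ ∀ (f : Pl → ℝ) (l k : ℤ) (x : Pl), BB f → (∀ x, 0 ≤ f x) →
      ENNReal.ofReal ((2 : ℝ) ^ l) ≤ ∑' u : ℕ, (if 2 ≤ u then Ht c φ τ u k (fh l f) x else 0) →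
      (∃ (t : ℤ) (ρ u : ℕ), t ≤ t₀ ∧ 2 ≤ u ∧ (Hh c φ τ u ρ k (lev f (l - t + u + ρ)) x).Nonempty) ∨
      (∃ t ρ u : ℕ, t₀ ≤ t ∧ Cρ * t ≤ ρ ∧ 2 ≤ u ∧
        (Hh c φ τ u ρ k (lev f (l - t + u + ρ)) x).Nonempty) ∨
      (∃ t ρ u s : ℕ, t₀ ≤ t ∧ ρ ≤ Cρ * t ∧ C₂ * (t + ρ + 1) ≤ u ∧ C₂ * (t + ρ + 1) ≤ s ∧
        (Hh c φ τ u ρ k (lev f (l - t + u + ρ)) x).Nonempty ∧
        (Hh c φ τ (u + s) ρ k (lev f (l - t + (u + s) + ρ)) x).Nonempty) ∨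
      (∃ t ρ u : ℕ, t₀ ≤ t ∧ ρ ≤ Cρ * t ∧ 2 ≤ u ∧ (2 : ℝ) ^ ((1 - e1 p) * t) ≤
        ((Hh c φ τ u ρ k (lev f (l - t + u + ρ)) x).ncard : ℝ))

/-- EVS (about 200 lines), summation of the four alternatives.  Choose `Cρ` with `(p-2) Cρ ≥ p + 1`, `C₂` from HBS, `t₁` from HAS (with `Cρ`), `t₀` from PIG.  The measure of the set is at most the sum of the measures over the alternatives, over `k` and over `t, ρ, u, s` (outer measure).  (1) ONE, `t ≤ t₀`: `∑_{t ≤ t₀} ∑_ρ C 2^(pt - (p-2)ρ) < ∞`.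
(2) ONE, `∑_t ∑_{ρ ≥ Cρ t} C 2^(pt - (p-2)ρ) ≤ C ∑_t 2^(pt - (p-2) Cρ t) ≤ C ∑ 2^(-t)`.  (3) HBS, `∑_{t,ρ} C 2^(-(t+ρ))`.  (4) HAS, `∑_t (Cρ t + 1) C 2^(-e1 t/2) < ∞`.  Hypotheses: hPIG, hONE, hHBS, hHAS. -/
def StEVS : Prop :=
  ∀ (φ τ : ℝ → ℝ) (A p : ℝ) (c : Pl), Graph φ τ → 0 < A → GapP A p τ → 2 < p → p < 3 →
    ∃ C : ℝ, 1 ≤ C ∧ ∀ (R₀ : ℝ) (f : Pl → ℝ), C ≤ R₀ → BB f → (∀ x, 0 ≤ f x) →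
      ∑' l : ℤ, ENNReal.ofReal ((2 : ℝ) ^ (p * l)) * volume {x | Gd R₀ l f x ∧ ∃ k : ℤ,
        ENNReal.ofReal ((2 : ℝ) ^ l) ≤ ∑' u : ℕ, (if 2 ≤ u then Ht c φ τ u k (fh l f) x else 0)} ≤
        ENNReal.ofReal C * ∫⁻ x, ENNReal.ofReal (f x) ^ p

/-- EER (about 200 lines), the error.  `er` is the function in ERR (project RG) with `W = 0`, `σ = p`, `A' = A^(1/p)` (GPG).  Chebyshev: `∑_k vol {2^l/u² ≤ |er|} ≤ u⁴ 4^(-l) C 2^(-u/2) (u+1) ∫ (fh l f)²`; the sum over `u` converges; `∑_l 2^(pl) 4^(-l) ∫_{2^(l-1) ≤ f} f² = ∫ f² ∑_{l : 2^(l-1) ≤ f} 2^((p-2)l) ≤ C ∫ f^p`.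
(`er` is measurable: YB.)  Hypotheses: hYB, hERR, hGPG. -/
def StEER : Prop :=
  ∀ (φ τ : ℝ → ℝ) (A p : ℝ) (c : Pl), Graph φ τ → 0 < A → GapP A p τ → 2 < p → p < 3 →
    ∃ C : ℝ, 0 < C ∧ ∀ f : Pl → ℝ, BB f → (∀ x, 0 ≤ f x) →
      ∑' l : ℤ, ENNReal.ofReal ((2 : ℝ) ^ (p * l)) * volume {x | ∃ (k : ℤ) (u : ℕ), 2 ≤ u ∧
        (2 : ℝ) ^ l / (u : ℝ) ^ 2 ≤ |er c φ τ u k (fh l f) x|} ≤
        ENNReal.ofReal C * ∫⁻ x, ENNReal.ofReal (f x) ^ p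

/-- LOW (about 120 lines), the first level.  `fh l f ≤ 2^(1-l) f²`, so `HL R₀ (fh l f) x ≤ 2^(1-l) HL R₀ (f²) x ≤ 2^(1-l) 4^l = 2^(l+1)`.  HLY (`R = ‖c‖ + |φ 0| + 3`, SYS `cen`; `ℓ = 1/2`): every `Y` in `Sa 1` is at most `4^(mm) 2^(l+1)`, `mm τ 1 j ≤ KA A' p 1` (SYS `mm`, or MM; `σ = p`, `A' = A^(1/p)`, GPG).
Hypotheses: hHLY, hSYS, hGPG. -/
def StLOW : Prop :=
  ∀ (φ τ : ℝ → ℝ) (A p : ℝ) (c : Pl), Graph φ τ → 0 < A → GapP A p τ → 1 < p →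
    ∃ C : ℝ, 1 ≤ C ∧ ∀ (R₀ : ℝ) (f : Pl → ℝ) (l k : ℤ) (x : Pl), C ≤ R₀ → BB f → (∀ x, 0 ≤ f x) →
      Gd R₀ l f x → Sa c φ τ 1 k (fh l f) x ≤ C * (2 : ℝ) ^ l

/-- DMP (about 200 lines), domination.  `f ≤ 2^(l-1) + fh l f` and `arc c φ` has mass one (`Av` is monotone): `Av (arc) f ≤ 2^(l-1) + Av (arc) (fh l f)`.  DOM with `u₀ = 1` for `fh l f` (all `l`, countably many null sets): `Av (arc) (fh l f) ≤ 4 Sa 1 + 4 ∑_{u ≥ 2} |Sa u - Sa (u-1)|`, LOW: `Sa 1 ≤ C 2^l`, and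
`|Sa u - Sa (u-1)| ≤ |er u| + Ht u`.  If `|er u| < 2^l/u²` for all `u ≥ 2` and `∑ Ht < 2^l` then `Av (arc) f ≤ 2^(l-1) + 4 C 2^l + 4·2^l + 4·2^l` (`∑_{u ≥ 2} 1/u² ≤ 1`): so `C₀ = 4C + 9`.  Hypotheses: hPT, hYB, hDOM, hLOW, hGPG. -/
def StDMP : Prop :=
  ∀ (φ τ : ℝ → ℝ) (A p : ℝ) (c : Pl), Graph φ τ → 0 < A → GapP A p τ → 1 < p →
    ∃ C : ℝ, 1 ≤ C ∧ ∀ (R₀ : ℝ) (f : Pl → ℝ), C ≤ R₀ → BB f → (∀ x, 0 ≤ f x) → ∀ᵐ x : Pl, ∀ k l : ℤ,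
      Gd R₀ l f x → C * (2 : ℝ) ^ l < Av (arc c φ) ((2 : ℝ) ^ k) f x →
      (∃ u : ℕ, 2 ≤ u ∧ (2 : ℝ) ^ l / (u : ℝ) ^ 2 ≤ |er c φ τ u k (fh l f) x|) ∨
      ENNReal.ofReal ((2 : ℝ) ^ l) ≤ ∑' u : ℕ, (if 2 ≤ u then Ht c φ τ u k (fh l f) x else 0)

/-- CRQ (about 250 lines), the strong type estimate for bounded functions.  `F = ⨆_k ofReal (Av (arc) (2^k) f)` is measurable and bounded.  `C₀` from DMP, `R₀` = the maximum of the constants of DMP and EVS.  `F^p ≤ ∑'_l ofReal (C₀ 2^(l+1))^p 1[ofReal (C₀ 2^l) < F]` (if `F x > 0` take `l` with `C₀ 2^l < F x ≤ C₀ 2^(l+1)`).  By DMP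
`vol {ofReal (C₀ 2^l) < F} ≤ vol {¬ Gd R₀ l f} + vol (set of EER) + vol (set of EVS)`.  `∑_l 2^(pl) vol {¬ Gd R₀ l f} = ∑_l 2^(pl) vol {4^l < HL R₀ (f²)} ≤ C ∫ HL R₀ (f²)^(p/2) ≤ C ∫ (f²)^(p/2) = C ∫ f^p` (`Helper68.LM.StHLS` with exponent `p/2 > 1`, its proof in LM.Asm; `∑_l 2^(pl) 1[4^l < H] ≤ C H^(p/2)`, geometric).
Hypotheses: hDMP, hEER, hEVS. -/
def StCRQ : Prop :=
  ∀ (φ τ : ℝ → ℝ) (A p : ℝ) (c : Pl), Graph φ τ → 0 < A → GapP A p τ → 2 < p → p < 3 →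
    ∃ C : ℝ, 0 < C ∧ ∀ g : Pl → ℝ, BB g → (∀ x, 0 ≤ g x) →
      ∫⁻ x, (⨆ k : ℤ, ENNReal.ofReal (Av (arc c φ) ((2 : ℝ) ^ k) g x)) ^ p ≤
        ENNReal.ofReal C * ∫⁻ x, ENNReal.ofReal (g x) ^ p

/-- MAQ (about 80 lines), the theorem.  As FZ of project EP (module Helper90.EP.M_FZ): COV; CPP for every piece and `Graph (φ (ℓ ·)/ℓ) (τ (ℓ ·))`; CRQ and `Helper79.RG.co2_gen` (see Helper42.EP.M_FM) give `MaxB (arc ..) p`, RES, FIN.  Hypotheses: hCOV, hCPP, hCRQ, hRES, hFIN. -/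
def StMAQ : Prop :=
  ∀ (Ω : Set Pl) (p : ℝ), IsOpen Ω → Convex ℝ Ω → Bornology.IsBounded Ω → (0 : Pl) ∈ Ω → 2 < p → p < 3 →
    ConditionG Ω p → LpBounded Ω p

end Pool.Agent.Helper20.EQ
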